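import Mathlib

/-!
# The conformal map `τ ↦ τ + e^τ` of the strip `|Im τ| < π`

We show that it is injective on the strip, that its image contains the half plane `Re σ > -1`, and
construct the analytic inverse there.
-/

open Complex Set Filter Topology

namespace Pool.Agent.H51.Becker

/-- The map `τ ↦ τ + e^τ`. -/
noncomputable def Lam (τ : ℂ) : ℂ := τ + exp τ

/-- The strip `|Im τ| < π`. -/
def Strip : Set ℂ := {τ | |τ.im| < Real.pi}

lemma isOpen_Strip : IsOpen Strip :=
  isOpen_lt (continuous_abs.comp continuous_im) continuous_const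

lemma Lam_re (τ : ℂ) : (Lam τ).re = τ.re + Real.exp τ.re * Real.cos τ.im := by
  simp [Lam, exp_re]

lemma Lam_im (τ : ℂ) : (Lam τ).im = τ.im + Real.exp τ.re * Real.sin τ.im := by
  simp [Lam, exp_im]

lemma continuous_Lam : Continuous Lam := by unfold Lam; fun_prop

lemma hasStrictDerivAt_Lam (τ : ℂ) : HasStrictDerivAt Lam (1 + exp τ) τ :=
  (hasStrictDerivAt_id τ).add (hasStrictDerivAt_exp τ)

lemma one_add_exp_ne_zero {τ : ℂ} (hτ : τ ∈ Strip) : 1 + exp τ ≠ 0 := by
  intro h
  have h1 : exp τ = -1 := by linear_combination h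
  have hre : Real.exp τ.re * Real.cos τ.im = -1 := by
    rw [← exp_re, h1]; simp
  have him : Real.exp τ.re * Real.sin τ.im = 0 := by
    rw [← exp_im, h1]; simp
  have hs : Real.sin τ.im = 0 := by
    rcases mul_eq_zero.1 him with h2 | h2
    · exact absurd h2 (Real.exp_pos _).ne'
    · exact h2
  have habs := abs_lt.1 (show |τ.im| < Real.pi from hτ)
  have h0 : τ.im = 0 := by
    have := (Real.sin_eq_zero_iff_of_lt_of_lt habs.1 habs.2).1 hs
    exact this
  rw [h0, Real.cos_zero, mul_one] at hre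
  linarith [Real.exp_pos τ.re]

/-- The auxiliary function. -/
noncomputable def P (q a : ℝ) : ℝ :=
  Real.log (q - a) - Real.log (Real.sin a) + (q - a) * (Real.cos a / Real.sin a)

lemma hasDerivAt_P {q a : ℝ} (h0 : 0 < Real.sin a) (hq : 0 < q - a) :
    HasDerivAt (P q) (-(((Real.sin a + (q - a) * Real.cos a) ^ 2 + ((q - a) * Real.sin a) ^ 2) /
      ((q - a) * Real.sin a ^ 2))) a := by
  have h1 : HasDerivAt (fun x : ℝ => q - x) (-1) a := by
    simpa using (hasDerivAt_id a).const_sub q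
  have h2 : HasDerivAt (fun x => Real.log (q - x)) (-1 / (q - a)) a := h1.log hq.ne'
  have h3 : HasDerivAt (fun x => Real.log (Real.sin x)) (Real.cos a / Real.sin a) a :=
    (Real.hasDerivAt_sin a).log h0.ne'
  have h4 : HasDerivAt (fun x => Real.cos x / Real.sin x)
      ((-Real.sin a * Real.sin a - Real.cos a * Real.cos a) / Real.sin a ^ 2) a :=
    (Real.hasDerivAt_cos a).div (Real.hasDerivAt_sin a) h0.ne'
  have h5 := (h2.sub h3).add (h1.mul h4)
  refine h5.congr_deriv ?_
  have hsc := Real.sin_sq_add_cos_sq a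
  have hs0 : Real.sin a ≠ 0 := h0.ne'
  have hq0 : q - a ≠ 0 := hq.ne'
  have hc : Real.cos a ^ 2 = 1 - Real.sin a ^ 2 := by linarith
  field_simp
  ring_nf
  try rw [hc]
  try ring

lemma P_strictAnti (q : ℝ) : StrictAntiOn (P q) (Ioo 0 (min q Real.pi)) := by
  have hcond : ∀ a ∈ Ioo 0 (min q Real.pi), 0 < Real.sin a ∧ 0 < q - a := by
    intro a ha
    refine ⟨Real.sin_pos_of_pos_of_lt_pi ha.1 (lt_of_lt_of_le ha.2 (min_le_right _ _)), ?_⟩
    have := lt_of_lt_of_le ha.2 (min_le_left _ _)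
    linarith
  apply strictAntiOn_of_deriv_neg (convex_Ioo _ _)
  · intro a ha
    obtain ⟨h1, h2⟩ := hcond a ha
    exact (hasDerivAt_P h1 h2).continuousAt.continuousWithinAt
  · intro a ha
    rw [interior_Ioo] at ha
    obtain ⟨h1, h2⟩ := hcond a ha
    rw [(hasDerivAt_P h1 h2).deriv]
    have : 0 < ((Real.sin a + (q - a) * Real.cos a) ^ 2 + ((q - a) * Real.sin a) ^ 2) /
      ((q - a) * Real.sin a ^ 2) := by positivity
    linarith

lemma key_of_pos {τ : ℂ} (hτ : τ ∈ Strip) (hq : 0 < (Lam τ).im) :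
    τ.im ∈ Ioo 0 (min (Lam τ).im Real.pi) ∧
      τ.re = Real.log ((Lam τ).im - τ.im) - Real.log (Real.sin τ.im) ∧
      (Lam τ).re = P (Lam τ).im τ.im := by
  have habs := abs_lt.1 (show |τ.im| < Real.pi from hτ)
  have him := Lam_im τ
  have hexp := Real.exp_pos τ.re
  have h0 : 0 < τ.im := by
    by_contra hle
    push Not at hle
    have hs : Real.sin τ.im ≤ 0 := Real.sin_nonpos_of_nonpos_of_neg_pi_le hle habs.1.le
    nlinarith
  have hs : 0 < Real.sin τ.im := Real.sin_pos_of_pos_of_lt_pi h0 habs.2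
  have hqa : 0 < (Lam τ).im - τ.im := by
    rw [him]; nlinarith
  have hqa' : (Lam τ).im - τ.im = Real.exp τ.re * Real.sin τ.im := by rw [him]; ring
  have hre : τ.re = Real.log ((Lam τ).im - τ.im) - Real.log (Real.sin τ.im) := by
    rw [hqa', Real.log_mul hexp.ne' hs.ne', Real.log_exp]; ring
  refine ⟨⟨h0, lt_min (by linarith) habs.2⟩, hre, ?_⟩
  rw [P, ← hre, Lam_re, hqa']
  field_simp

lemma eq_of_pos {τ₁ τ₂ : ℂ} (h₁ : τ₁ ∈ Strip) (h₂ : τ₂ ∈ Strip) (h : Lam τ₁ = Lam τ₂)
    (hq : 0 < (Lam τ₁).im) : τ₁ = τ₂ := by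
  obtain ⟨a1, b1, c1⟩ := key_of_pos h₁ hq
  obtain ⟨a2, b2, c2⟩ := key_of_pos h₂ (h ▸ hq)
  rw [← h] at a2 b2 c2
  have him : τ₁.im = τ₂.im := (P_strictAnti (Lam τ₁).im).injOn a1 a2 (by rw [← c1, ← c2])
  apply Complex.ext
  · rw [b1, b2, him]
  · exact him

lemma Lam_conj (τ : ℂ) : Lam ((starRingEnd ℂ) τ) = (starRingEnd ℂ) (Lam τ) := by
  simp [Lam, exp_conj]

lemma eq_of_zero {τ : ℂ} (hτ : τ ∈ Strip) (hq : (Lam τ).im = 0) : τ.im = 0 := by
  have habs := abs_lt.1 (show |τ.im| < Real.pi from hτ)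
  have him := Lam_im τ
  have hexp := Real.exp_pos τ.re
  rw [hq] at him
  rcases lt_trichotomy τ.im 0 with h | h | h
  · have hs : Real.sin τ.im < 0 := Real.sin_neg_of_neg_of_neg_pi_lt h habs.1
    nlinarith
  · exact h
  · have hs : 0 < Real.sin τ.im := Real.sin_pos_of_pos_of_lt_pi h habs.2
    nlinarith

lemma injOn_Lam : InjOn Lam Strip := by
  intro τ₁ h₁ τ₂ h₂ h
  rcases lt_trichotomy (Lam τ₁).im 0 with hq | hq | hq
  · have h₁' : (starRingEnd ℂ) τ₁ ∈ Strip := by simpa [Strip] using h₁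
    have h₂' : (starRingEnd ℂ) τ₂ ∈ Strip := by simpa [Strip] using h₂
    have := eq_of_pos h₁' h₂' (by rw [Lam_conj, Lam_conj, h]) (by rw [Lam_conj, conj_im]; linarith)
    exact (starRingEnd ℂ).injective this
  · have i1 := eq_of_zero h₁ hq
    have i2 := eq_of_zero h₂ (h ▸ hq)
    have hre := congrArg Complex.re h
    rw [Lam_re, Lam_re, i1, i2, Real.cos_zero, mul_one, mul_one] at hre
    have hmono : StrictMono (fun x : ℝ => x + Real.exp x) :=
      strictMono_id.add Real.exp_strictMono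
    exact Complex.ext (hmono.injective hre) (by rw [i1, i2])
  · exact eq_of_pos h₁ h₂ h hq

/-- The closed strip is mapped onto a closed set. -/
lemma isClosed_image : IsClosed (Lam '' {τ : ℂ | |τ.im| ≤ Real.pi}) := by
  have hclosed : IsClosed {τ : ℂ | |τ.im| ≤ Real.pi} :=
    isClosed_le (continuous_abs.comp continuous_im) continuous_const
  rw [← isSeqClosed_iff_isClosed]
  intro u σ hu hlim
  choose t ht hut using hu
  -- the sequence `t` is bounded
  obtain ⟨M, hM⟩ : ∃ M : ℝ, ∀ n, ‖u n‖ ≤ M := by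
    obtain ⟨M, hM⟩ := (Metric.isBounded_range_of_tendsto u hlim).exists_norm_le
    exact ⟨M, fun n => hM _ (mem_range_self n)⟩
  have hbound : ∀ n, ‖t n‖ ≤ (max M 0 + 10) + Real.pi := by
    intro n
    have h1 : ‖Lam (t n)‖ ≤ M := by rw [hut]; exact hM n
    have hpi : |(t n).im| ≤ Real.pi := ht n
    have hre : |(t n).re| ≤ max M 0 + 10 := by
      have hM0 : M ≤ max M 0 := le_max_left _ _
      have hM1 : 0 ≤ max M 0 := le_max_right _ _
      rw [abs_le]
      constructor
      · -- lower bound: `|t| ≤ |Lam| + |exp|`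
        by_contra hlt
        push Not at hlt
        have hexp : Real.exp (t n).re ≤ 1 := by
          rw [Real.exp_le_one_iff]; linarith
        have h2 : (Lam (t n)).re ≤ (t n).re + 1 := by
          rw [Lam_re]
          have := Real.cos_le_one (t n).im
          nlinarith [Real.exp_pos (t n).re]
        have h3 : -M ≤ (Lam (t n)).re := by
          have := (abs_le.1 ((abs_re_le_norm (Lam (t n))).trans h1)).1
          exact this
        linarith
      · by_contra hlt
        push Not at hlt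
        -- `‖Lam t‖ ≥ e^b - b - π`
        have h4 : Real.exp (t n).re ≤ M + ((t n).re + Real.pi) := by
          have e1 : ‖exp (t n)‖ = Real.exp (t n).re := norm_exp _
          have e2 : exp (t n) = Lam (t n) - t n := by simp [Lam]
          have e3 : ‖t n‖ ≤ |(t n).re| + |(t n).im| := norm_le_abs_re_add_abs_im _
          have e4 : |(t n).re| = (t n).re := abs_of_nonneg (by linarith)
          calc Real.exp (t n).re = ‖Lam (t n) - t n‖ := by rw [← e1, e2]
            _ ≤ ‖Lam (t n)‖ + ‖t n‖ := norm_sub_le _ _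
            _ ≤ M + ((t n).re + Real.pi) := by rw [e4] at e3; linarith
        have h5 : (t n).re ^ 2 / 2 ≤ Real.exp (t n).re := by
          have := Real.quadratic_le_exp_of_nonneg (x := (t n).re) (by linarith)
          linarith
        have hpi4 := Real.pi_lt_four
        nlinarith
    calc ‖t n‖ ≤ |(t n).re| + |(t n).im| := norm_le_abs_re_add_abs_im _
      _ ≤ _ := by linarith
  obtain ⟨τ, hτ, φ, hφ, hφlim⟩ := tendsto_subseq_of_bounded
    (Metric.isBounded_closedBall (x := (0 : ℂ)) (r := (max M 0 + 10) + Real.pi))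
    (x := t) (by intro n; simpa using hbound n)
  have hmem : τ ∈ {τ : ℂ | |τ.im| ≤ Real.pi} :=
    hclosed.mem_of_tendsto hφlim (Eventually.of_forall fun n => ht _)
  refine ⟨τ, hmem, ?_⟩
  have h1 : Tendsto (fun n => Lam (t (φ n))) atTop (𝓝 (Lam τ)) :=
    (continuous_Lam.tendsto τ).comp hφlim
  have h2 : Tendsto (fun n => u (φ n)) atTop (𝓝 σ) := hlim.comp hφ.tendsto_atTop
  have h3 : (fun n => Lam (t (φ n))) = fun n => u (φ n) := by
    ext n; exact hut _
  rw [h3] at h1
  exact tendsto_nhds_unique h1 h2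

lemma isOpen_image : IsOpen (Lam '' Strip) := by
  rw [isOpen_iff_mem_nhds]
  rintro _ ⟨τ, hτ, rfl⟩
  rw [← (hasStrictDerivAt_Lam τ).map_nhds_eq (one_add_exp_ne_zero hτ)]
  exact image_mem_map (isOpen_Strip.mem_nhds hτ)

/-- The half plane `Re σ > -1` lies in the image of the strip. -/
lemma halfPlane_subset : {σ : ℂ | -1 < σ.re} ⊆ Lam '' Strip := by
  have hconv : Convex ℝ {σ : ℂ | -1 < σ.re} := convex_halfSpace_re_gt (-1)
  refine hconv.isPreconnected.subset_left_of_subset_union isOpen_image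
    isClosed_image.isOpen_compl ?_ ?_ ?_
  · rw [disjoint_compl_right_iff_subset]
    apply image_mono
    intro τ hτ
    exact (show |τ.im| < Real.pi from hτ).le
  · intro σ hσ
    by_cases hmem : σ ∈ Lam '' {τ : ℂ | |τ.im| ≤ Real.pi}
    · left
      obtain ⟨τ, hτ, rfl⟩ := hmem
      refine ⟨τ, ?_, rfl⟩
      rcases (show |τ.im| ≤ Real.pi from hτ).lt_or_eq with h | h
      · exact h
      · exfalso
        have hσ' : -1 < (Lam τ).re := hσ
        have hcos : Real.cos τ.im = -1 := by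
          rw [← Real.cos_abs, h, Real.cos_pi]
        rw [Lam_re, hcos] at hσ'
        have := Real.add_one_le_exp τ.re
        linarith
    · right; exact hmem
  · refine ⟨Lam 0, ?_, ⟨0, ?_, rfl⟩⟩
    · simp [Lam]
    · simp [Strip, Real.pi_pos]

/-- The inverse of `Lam` on the half plane. -/
noncomputable def inv (σ : ℂ) : ℂ := Function.invFunOn Lam Strip σ

lemma inv_mem {σ : ℂ} (hσ : -1 < σ.re) : inv σ ∈ Strip :=
  Function.invFunOn_mem (halfPlane_subset hσ)

lemma Lam_inv {σ : ℂ} (hσ : -1 < σ.re) : Lam (inv σ) = σ :=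
  Function.invFunOn_eq (halfPlane_subset hσ)

lemma inv_Lam {τ : ℂ} (hτ : τ ∈ Strip) : inv (Lam τ) = τ :=
  injOn_Lam.leftInvOn_invFunOn hτ

lemma hasDerivAt_inv {σ : ℂ} (hσ : -1 < σ.re) :
    HasDerivAt inv (1 + exp (inv σ))⁻¹ σ := by
  have hopen : IsOpen {σ : ℂ | -1 < σ.re} := isOpen_lt continuous_const continuous_re
  refine HasDerivAt.of_local_left_inverse ?_ (hasStrictDerivAt_Lam (inv σ)).hasDerivAt
    (one_add_exp_ne_zero (inv_mem hσ)) ?_
  · -- continuity
    intro N hN
    have h1 : N ∩ Strip ∈ 𝓝 (inv σ) := inter_mem hN (isOpen_Strip.mem_nhds (inv_mem hσ))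
    have h2 : Lam '' (N ∩ Strip) ∈ 𝓝 (Lam (inv σ)) := by
      rw [← (hasStrictDerivAt_Lam (inv σ)).map_nhds_eq (one_add_exp_ne_zero (inv_mem hσ))]
      exact image_mem_map h1
    rw [Lam_inv hσ] at h2
    rw [mem_map]
    refine mem_of_superset h2 ?_
    rintro _ ⟨t, ⟨htN, htS⟩, rfl⟩
    change inv (Lam t) ∈ N
    rwa [inv_Lam htS]
  · filter_upwards [hopen.mem_nhds hσ] with y hy
    exact Lam_inv hy

end Pool.Agent.H51.Becker
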