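import Mathlib.Analysis.Normed.Module.Basic
import Mathlib.Analysis.SpecialFunctions.Pow.Real

/-!
# Generalised angles in real normed spaces: definitions
-/

namespace Pool.Agent.H51.Angle

/-- The product `⟨x | y⟩_ρ = ‖x‖ ‖y‖ · (s² - d²)/4 · ((s² + d²)/4)^ρ`, where
`s = ‖x/‖x‖ + y/‖y‖‖` and `d = ‖x/‖x‖ - y/‖y‖‖`. -/
noncomputable def angleProduct {X : Type} [NormedAddCommGroup X] [NormedSpace ℝ X]
    (ρ : ℝ) (x y : X) : ℝ :=
  ‖x‖ * ‖y‖ *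
    ((‖‖x‖⁻¹ • x + ‖y‖⁻¹ • y‖ ^ 2 - ‖‖x‖⁻¹ • x - ‖y‖⁻¹ • y‖ ^ 2) / 4) *
    ((‖‖x‖⁻¹ • x + ‖y‖⁻¹ • y‖ ^ 2 + ‖‖x‖⁻¹ • x - ‖y‖⁻¹ • y‖ ^ 2) / 4) ^ ρ

/-- The real normed space `X` has the angle `∠_ρ`: `|⟨x | y⟩_ρ| ≤ ‖x‖ ‖y‖` for all nonzero
`x, y`. -/
def HasAngle (ρ : ℝ) (X : Type) [NormedAddCommGroup X] [NormedSpace ℝ X] : Prop :=
  ∀ x y : X, x ≠ 0 → y ≠ 0 → |angleProduct ρ x y| ≤ ‖x‖ * ‖y‖

/-- A bundled real normed space (of arbitrary dimension). -/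
structure RealNormedSpace where
  /-- the underlying type -/
  carrier : Type
  [group : NormedAddCommGroup carrier]
  [space : NormedSpace ℝ carrier]

attribute [instance] RealNormedSpace.group RealNormedSpace.space

/-- The class `NORM_ρ` of all real normed spaces that have the angle `∠_ρ`. -/
def NormClass (ρ : ℝ) : Set RealNormedSpace := {X | HasAngle ρ X.carrier}

end Pool.Agent.H51.Angle
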