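import Mathlib
import Pool.Agent.H51.AngleDefs

/-!
# Separating the classes `NORM_ρ`
-/

namespace Pool.Agent.H51.Angle

section General

variable {X : Type} [NormedAddCommGroup X] [NormedSpace ℝ X]

/-- Reduction to unit vectors. -/
lemma hasAngle_iff_unit (ρ : ℝ) :
    HasAngle ρ X ↔ ∀ x y : X, ‖x‖ = 1 → ‖y‖ = 1 →
      |(‖x + y‖ ^ 2 - ‖x - y‖ ^ 2) / 4| * ((‖x + y‖ ^ 2 + ‖x - y‖ ^ 2) / 4) ^ ρ ≤ 1 := by
  constructor
  · intro h x y hx hy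
    have hx0 : x ≠ 0 := by
      intro h0; rw [h0, norm_zero] at hx; exact zero_ne_one hx
    have hy0 : y ≠ 0 := by
      intro h0; rw [h0, norm_zero] at hy; exact zero_ne_one hy
    have := h x y hx0 hy0
    simp only [angleProduct, hx, hy, inv_one, one_smul, mul_one, one_mul, abs_mul] at this
    rwa [abs_of_nonneg (Real.rpow_nonneg (by positivity) ρ)] at this
  · intro h x y hx hy
    have hnx : ‖‖x‖⁻¹ • x‖ = 1 := by
      rw [norm_smul, norm_inv, norm_norm, inv_mul_cancel₀ (norm_ne_zero_iff.2 hx)]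
    have hny : ‖‖y‖⁻¹ • y‖ = 1 := by
      rw [norm_smul, norm_inv, norm_norm, inv_mul_cancel₀ (norm_ne_zero_iff.2 hy)]
    have := h _ _ hnx hny
    simp only [angleProduct]
    rw [mul_assoc, abs_mul, abs_mul, abs_mul, abs_norm, abs_norm,
      abs_of_nonneg (Real.rpow_nonneg (by positivity) ρ)]
    calc ‖x‖ * ‖y‖ * _ ≤ ‖x‖ * ‖y‖ * 1 := by gcongr
      _ = ‖x‖ * ‖y‖ := mul_one _

/-- Reduction to vectors of equal norm, convenient for disproving `HasAngle`. -/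
lemma not_hasAngle_of (ρ : ℝ) (x y : X) (n S D : ℝ) (hn : 0 < n) (hx : ‖x‖ = n) (hy : ‖y‖ = n)
    (hS : ‖x + y‖ ^ 2 = 4 * n ^ 2 * S) (hD : ‖x - y‖ ^ 2 = 4 * n ^ 2 * D)
    (h : 1 < (S - D) * (S + D) ^ ρ) : ¬ HasAngle ρ X := by
  intro hA
  rw [hasAngle_iff_unit] at hA
  have hnn : ‖n⁻¹‖ = n⁻¹ := by rw [Real.norm_eq_abs, abs_of_pos (inv_pos.2 hn)]
  have h1 : ‖n⁻¹ • x‖ = 1 := by
    rw [norm_smul, hnn, hx, inv_mul_cancel₀ hn.ne']
  have h2 : ‖n⁻¹ • y‖ = 1 := by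
    rw [norm_smul, hnn, hy, inv_mul_cancel₀ hn.ne']
  have h3 : ‖n⁻¹ • x + n⁻¹ • y‖ ^ 2 = 4 * S := by
    rw [← smul_add, norm_smul, mul_pow, hS, hnn]; field_simp
  have h4 : ‖n⁻¹ • x - n⁻¹ • y‖ ^ 2 = 4 * D := by
    rw [← smul_sub, norm_smul, mul_pow, hD, hnn]; field_simp
  have h5 := hA _ _ h1 h2
  rw [h3, h4] at h5
  have e1 : (4 * S - 4 * D) / 4 = S - D := by ring
  have e2 : (4 * S + 4 * D) / 4 = S + D := by ring
  rw [e1, e2] at h5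
  have h6 : (0 : ℝ) ≤ S := by nlinarith [norm_nonneg (x + y), sq_nonneg ‖x + y‖, sq_pos_of_pos hn]
  have h7 : (0 : ℝ) ≤ D := by nlinarith [norm_nonneg (x - y), sq_nonneg ‖x - y‖, sq_pos_of_pos hn]
  have h8 : (0 : ℝ) ≤ (S + D) ^ ρ := Real.rpow_nonneg (by positivity) ρ
  have h9 : (S - D) * (S + D) ^ ρ ≤ |S - D| * (S + D) ^ ρ := by
    gcongr
    exact le_abs_self _
  linarith

/-- Scalar inequality for the convex case. -/
lemma scalar_conv {q ρ S D : ℝ} (hρ : 0 ≤ ρ) (h : ρ * (1 - q) ≤ 1 + q) (hS : 0 ≤ S) (hD : 0 ≤ D)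
    (hSD : D ≤ S) (h1 : S + q * D ≤ 1) : (S - D) * (S + D) ^ ρ ≤ 1 := by
  have e1 : S - D ≤ Real.exp (-((1 + q) * D)) := by
    calc S - D ≤ -((1 + q) * D) + 1 := by linarith
      _ ≤ _ := Real.add_one_le_exp _
  have e2 : S + D ≤ Real.exp ((1 - q) * D) := by
    calc S + D ≤ (1 - q) * D + 1 := by linarith
      _ ≤ _ := Real.add_one_le_exp _
  calc (S - D) * (S + D) ^ ρ ≤ Real.exp (-((1 + q) * D)) * (Real.exp ((1 - q) * D)) ^ ρ := by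
        apply mul_le_mul e1 (Real.rpow_le_rpow (by positivity) e2 hρ)
          (Real.rpow_nonneg (by positivity) _) (Real.exp_nonneg _)
    _ = Real.exp ((ρ * (1 - q) - (1 + q)) * D) := by
        rw [← Real.exp_mul, ← Real.exp_add]; congr 1; ring
    _ ≤ Real.exp 0 := by
        apply Real.exp_le_exp.2
        exact mul_nonpos_of_nonpos_of_nonneg (by linarith) hD
    _ = 1 := Real.exp_zero

/-- A space that is 2-uniformly convex with constant `q` has all angles `∠_ρ` with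
`0 ≤ ρ ≤ (1 + q) / (1 - q)`. -/
lemma hasAngle_of_convex {q ρ : ℝ} (hρ : 0 ≤ ρ) (h : ρ * (1 - q) ≤ 1 + q)
    (hX : ∀ x y : X, ‖x + y‖ ^ 2 + q * ‖x - y‖ ^ 2 ≤ 2 * (‖x‖ ^ 2 + ‖y‖ ^ 2)) :
    HasAngle ρ X := by
  rw [hasAngle_iff_unit]
  intro x y hx hy
  have h1 := hX x y
  have h2 := hX x (-y)
  rw [← sub_eq_add_neg, sub_neg_eq_add, norm_neg] at h2
  rw [hx, hy] at h1 h2
  have e1 : (‖x + y‖ ^ 2 - ‖x - y‖ ^ 2) / 4 = ‖x + y‖ ^ 2 / 4 - ‖x - y‖ ^ 2 / 4 := by ring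
  have e2 : (‖x + y‖ ^ 2 + ‖x - y‖ ^ 2) / 4 = ‖x + y‖ ^ 2 / 4 + ‖x - y‖ ^ 2 / 4 := by ring
  rw [e1, e2]
  rcases le_total (‖x - y‖ ^ 2 / 4) (‖x + y‖ ^ 2 / 4) with hle | hle
  · rw [abs_of_nonneg (by linarith)]
    exact scalar_conv hρ h (by positivity) (by positivity) hle (by linarith)
  · rw [abs_of_nonpos (by linarith), neg_sub, add_comm (‖x + y‖ ^ 2 / 4)]
    exact scalar_conv hρ h (by positivity) (by positivity) hle (by linarith)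

/-- Scalar inequality for the smooth case. -/
lemma scalar_smooth {Q δ S D : ℝ} (hQ : 1 ≤ Q) (hδ : 1 ≤ δ) (h : δ * (Q - 1) ≤ Q + 1)
    (hS : 0 ≤ S) (hD : 0 ≤ D) (hS1 : S ≤ 1) (hSD : D ≤ S) (h1 : 1 ≤ S + Q * D) :
    (S - D) * (S + D) ^ (-δ) ≤ 1 := by
  have hpos : 0 < S + D := by
    rcases hS.eq_or_lt with h0 | h0
    · have : 0 < Q * D := by rw [← h0] at h1; linarith
      have : D ≠ 0 := by rintro rfl; simp at this
      have : 0 < D := lt_of_le_of_ne hD this.symm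
      linarith
    · linarith
  rw [Real.rpow_neg hpos.le, ← div_eq_mul_inv, div_le_one (Real.rpow_pos_of_pos hpos _)]
  set E := (1 - S) / Q with hE
  have hQ0 : 0 < Q := by linarith
  have hE0 : 0 ≤ E := div_nonneg (by linarith) hQ0.le
  have hSE : S = 1 - Q * E := by rw [hE]; field_simp; ring
  have hED : E ≤ D := by
    rw [hE, div_le_iff₀ hQ0]; linarith
  have hQE : Q * E ≤ 1 := by linarith
  have h3 : 1 + δ * (-((Q - 1) * E)) ≤ (1 + (-((Q - 1) * E))) ^ δ :=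
    one_add_mul_self_le_rpow_one_add (by nlinarith) hδ
  have h4 : δ * (Q - 1) * E ≤ (Q + 1) * E := mul_le_mul_of_nonneg_right h hE0
  calc S - D ≤ 1 + δ * (-((Q - 1) * E)) := by nlinarith
    _ ≤ (1 + (-((Q - 1) * E))) ^ δ := h3
    _ ≤ (S + D) ^ δ := by
        apply Real.rpow_le_rpow (by nlinarith) (by nlinarith) (by linarith)

/-- A space that is 2-uniformly smooth with constant `Q` (on unit vectors) has the angles `∠_{-δ}`
with `1 ≤ δ ≤ (Q + 1) / (Q - 1)`. -/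
lemma hasAngle_of_smooth {Q δ : ℝ} (hQ : 1 ≤ Q) (hδ : 1 ≤ δ) (h : δ * (Q - 1) ≤ Q + 1)
    (hX : ∀ x y : X, ‖x‖ = 1 → ‖y‖ = 1 → 4 ≤ ‖x + y‖ ^ 2 + Q * ‖x - y‖ ^ 2) :
    HasAngle (-δ) X := by
  rw [hasAngle_iff_unit]
  intro x y hx hy
  have h1 := hX x y hx hy
  have h2 := hX x (-y) hx (by rwa [norm_neg])
  rw [← sub_eq_add_neg, sub_neg_eq_add] at h2
  have h3 : ‖x + y‖ ≤ 2 := by
    calc ‖x + y‖ ≤ ‖x‖ + ‖y‖ := norm_add_le _ _
      _ = 2 := by rw [hx, hy]; norm_num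
  have h4 : ‖x - y‖ ≤ 2 := by
    calc ‖x - y‖ ≤ ‖x‖ + ‖y‖ := norm_sub_le _ _
      _ = 2 := by rw [hx, hy]; norm_num
  have h5 : ‖x + y‖ ^ 2 ≤ 4 := by nlinarith [norm_nonneg (x + y)]
  have h6 : ‖x - y‖ ^ 2 ≤ 4 := by nlinarith [norm_nonneg (x - y)]
  have e1 : (‖x + y‖ ^ 2 - ‖x - y‖ ^ 2) / 4 = ‖x + y‖ ^ 2 / 4 - ‖x - y‖ ^ 2 / 4 := by ring
  have e2 : (‖x + y‖ ^ 2 + ‖x - y‖ ^ 2) / 4 = ‖x + y‖ ^ 2 / 4 + ‖x - y‖ ^ 2 / 4 := by ring
  rw [e1, e2]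
  rcases le_total (‖x - y‖ ^ 2 / 4) (‖x + y‖ ^ 2 / 4) with hle | hle
  · rw [abs_of_nonneg (by linarith)]
    exact scalar_smooth hQ hδ h (by positivity) (by positivity) (by linarith) hle (by linarith)
  · rw [abs_of_nonpos (by linarith), neg_sub, add_comm (‖x + y‖ ^ 2 / 4)]
    exact scalar_smooth hQ hδ h (by positivity) (by positivity) (by linarith) hle (by linarith)

end General

end Pool.Agent.H51.Angle
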