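import Mathlib
import Pool.Agent.H51.AngleDefs
import Pool.Agent.H51.AngleProof

/-!
# The plane with norm `N(x)² = a (x₁² + x₂²) + max(|x₁|, |x₂|)²` and its dual
-/

namespace Pool.Agent.H51.Angle

/-- The underlying type of the plane. -/
def Plane (_a : ℝ) : Type := ℝ × ℝ

instance (a : ℝ) : AddCommGroup (Plane a) := inferInstanceAs (AddCommGroup (ℝ × ℝ))
noncomputable instance (a : ℝ) : Module ℝ (Plane a) := inferInstanceAs (Module ℝ (ℝ × ℝ))

/-- The identity as a linear equivalence. -/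
def toProd (a : ℝ) : Plane a ≃ₗ[ℝ] ℝ × ℝ := LinearEquiv.refl ℝ (ℝ × ℝ)

/-- The embedding inducing the norm. -/
noncomputable def emb (a : ℝ) : Plane a →ₗ[ℝ] WithLp 2 (WithLp 2 (ℝ × ℝ) × (ℝ × ℝ)) :=
  (WithLp.linearEquiv 2 ℝ (WithLp 2 (ℝ × ℝ) × (ℝ × ℝ))).symm.toLinearMap ∘ₗ
    ((Real.sqrt a • (WithLp.linearEquiv 2 ℝ (ℝ × ℝ)).symm.toLinearMap).prod LinearMap.id) ∘ₗ
    (toProd a).toLinearMap

lemma emb_injective (a : ℝ) : Function.Injective (emb a) := by
  intro x y h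
  have : (emb a x).snd = (emb a y).snd := by rw [h]
  exact this

noncomputable instance (a : ℝ) : NormedAddCommGroup (Plane a) :=
  NormedAddCommGroup.induced (Plane a) _ (emb a) (emb_injective a)

noncomputable instance (a : ℝ) : NormedSpace ℝ (Plane a) :=
  NormedSpace.induced ℝ (Plane a) _ (emb a)

/-- A vector of the plane. -/
def vec (a : ℝ) (u v : ℝ) : Plane a := (u, v)

lemma exists_vec {a : ℝ} (x : Plane a) : ∃ u v, x = vec a u v := ⟨x.1, x.2, rfl⟩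

lemma vec_add (a u v u' v' : ℝ) : vec a u v + vec a u' v' = vec a (u + u') (v + v') := rfl
lemma vec_sub (a u v u' v' : ℝ) : vec a u v - vec a u' v' = vec a (u - u') (v - v') := rfl

lemma norm_sq {a : ℝ} (ha : 0 ≤ a) (u v : ℝ) :
    ‖vec a u v‖ ^ 2 = a * (u ^ 2 + v ^ 2) + max |u| |v| ^ 2 := by
  have h0 : ‖vec a u v‖ = ‖emb a (vec a u v)‖ := rfl
  rw [h0, WithLp.prod_norm_sq_eq_of_L2]
  have h1 : (emb a (vec a u v)).fst = Real.sqrt a • WithLp.toLp 2 ((u, v) : ℝ × ℝ) := rfl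
  have h2 : (emb a (vec a u v)).snd = ((u, v) : ℝ × ℝ) := rfl
  rw [h1, h2, norm_smul, mul_pow, WithLp.prod_norm_sq_eq_of_L2]
  have h3 : ‖((u, v) : ℝ × ℝ)‖ = max |u| |v| := rfl
  rw [h3, Real.norm_eq_abs, sq_abs, Real.sq_sqrt ha]
  simp

lemma max_sq (u v : ℝ) : max |u| |v| ^ 2 = max (u ^ 2) (v ^ 2) := by
  rcases le_total |u| |v| with h | h
  · rw [max_eq_right h, max_eq_right (sq_le_sq.2 h), sq_abs]
  · rw [max_eq_left h, max_eq_left (sq_le_sq.2 h), sq_abs]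

lemma norm_sq' {a : ℝ} (ha : 0 ≤ a) (u v : ℝ) :
    ‖vec a u v‖ ^ 2 = a * (u ^ 2 + v ^ 2) + max (u ^ 2) (v ^ 2) := by
  rw [norm_sq ha, max_sq]

/-- The plane is 2-uniformly convex with constant `a / (a + 1)`. -/
lemma plane_convex {a : ℝ} (ha : 0 < a) (x y : Plane a) :
    ‖x + y‖ ^ 2 + a / (a + 1) * ‖x - y‖ ^ 2 ≤ 2 * (‖x‖ ^ 2 + ‖y‖ ^ 2) := by
  obtain ⟨u, v, rfl⟩ := exists_vec x
  obtain ⟨u', v', rfl⟩ := exists_vec y
  rw [vec_add, vec_sub, norm_sq' ha.le, norm_sq' ha.le, norm_sq' ha.le, norm_sq' ha.le]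
  have h1 : max ((u + u') ^ 2) ((v + v') ^ 2) ≤ 2 * max (u ^ 2) (v ^ 2) +
      2 * max (u' ^ 2) (v' ^ 2) := by
    apply max_le
    · nlinarith [le_max_left (u ^ 2) (v ^ 2), le_max_left (u' ^ 2) (v' ^ 2), sq_nonneg (u - u')]
    · nlinarith [le_max_right (u ^ 2) (v ^ 2), le_max_right (u' ^ 2) (v' ^ 2), sq_nonneg (v - v')]
  have h2 : max ((u - u') ^ 2) ((v - v') ^ 2) ≤ (u - u') ^ 2 + (v - v') ^ 2 := by
    apply max_le <;> nlinarith [sq_nonneg (u - u'), sq_nonneg (v - v')]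
  have h3 : a / (a + 1) * (a * ((u - u') ^ 2 + (v - v') ^ 2) +
      max ((u - u') ^ 2) ((v - v') ^ 2)) ≤ a * ((u - u') ^ 2 + (v - v') ^ 2) := by
    rw [div_mul_eq_mul_div, div_le_iff₀ (by linarith)]
    have := mul_le_mul_of_nonneg_left h2 ha.le
    nlinarith
  nlinarith

/-- The plane has all angles `∠_ρ`, `0 ≤ ρ ≤ 2a + 1`. -/
lemma plane_hasAngle {a ρ : ℝ} (ha : 0 < a) (hρ : 0 ≤ ρ) (h : ρ ≤ 2 * a + 1) :
    HasAngle ρ (Plane a) := by
  refine hasAngle_of_convex hρ (q := a / (a + 1)) ?_ (plane_convex ha)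
  have h1 : 1 - a / (a + 1) = 1 / (a + 1) := by field_simp; ring
  have h2 : 1 + a / (a + 1) = (2 * a + 1) / (a + 1) := by field_simp; ring
  rw [h1, h2, mul_one_div]
  gcongr

/-- The plane does not have the angle `∠_ρ` for `ρ > 2a + 1`. -/
lemma plane_not_hasAngle {a ρ : ℝ} (ha : 0 < a) (h : 2 * a + 1 < ρ) :
    ¬ HasAngle ρ (Plane a) := by
  have ha1 : 0 < a + 1 := by linarith
  set q := a / (a + 1) with hq
  have hq0 : 0 < q := div_pos ha ha1
  have hq1 : q < 1 := by rw [hq, div_lt_one ha1]; linarith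
  have hqa : (a + 1) * q = a := by rw [hq]; field_simp
  have hgap : 0 < ρ * (1 - q) - (1 + q) := by
    have h1 : 1 - q = 1 / (a + 1) := by rw [hq]; field_simp; ring
    have h2 : 1 + q = (2 * a + 1) / (a + 1) := by rw [hq]; field_simp; ring
    rw [h1, h2, mul_one_div, ← sub_div]
    exact div_pos (by linarith) ha1
  -- choose a small `t`
  set C := q + q ^ 2 + ρ * (1 - q) with hC
  have hCpos : 0 < C := by nlinarith
  set t := min (1 / 2) ((ρ * (1 - q) - (1 + q)) / (2 * C)) with ht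
  have ht0 : 0 < t := lt_min (by norm_num) (by positivity)
  have ht1 : t ≤ 1 / 2 := min_le_left _ _
  have ht2 : t * C < ρ * (1 - q) - (1 + q) := by
    have : t ≤ (ρ * (1 - q) - (1 + q)) / (2 * C) := min_le_right _ _
    rw [le_div_iff₀ (by positivity)] at this
    nlinarith
  set τ := Real.sqrt t with hτ
  have hτ2 : τ ^ 2 = t := Real.sq_sqrt ht0.le
  have hτ0 : 0 ≤ τ := Real.sqrt_nonneg _
  have hn2 : 0 < (a + 1) * (1 + q * t) := by positivity
  set n := Real.sqrt ((a + 1) * (1 + q * t)) with hn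
  have hnn : n ^ 2 = (a + 1) * (1 + q * t) := Real.sq_sqrt hn2.le
  have hnpos : 0 < n := Real.sqrt_pos.2 hn2
  have hx : ‖vec a 1 τ‖ = n := by
    rw [← Real.sqrt_sq (norm_nonneg (vec a 1 τ)), norm_sq' ha.le, hτ2, max_eq_left (by linarith), hn]
    congr 1
    nlinarith
  have hy : ‖vec a 1 (-τ)‖ = n := by
    rw [← Real.sqrt_sq (norm_nonneg (vec a 1 (-τ))), norm_sq' ha.le, neg_sq, hτ2,
      max_eq_left (by linarith), hn]
    congr 1
    nlinarith
  refine not_hasAngle_of ρ (vec a 1 τ) (vec a 1 (-τ)) n (1 / (1 + q * t)) (t / (1 + q * t))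
    hnpos hx hy ?_ ?_ ?_
  · rw [vec_add, norm_sq' ha.le, hnn]
    have : max (((1 : ℝ) + 1) ^ 2) ((τ + -τ) ^ 2) = 4 := by
      rw [add_neg_cancel, max_eq_left (by norm_num)]; norm_num
    rw [this]
    field_simp
    ring
  · rw [vec_sub, norm_sq' ha.le, hnn]
    have : max (((1 : ℝ) - 1) ^ 2) ((τ - -τ) ^ 2) = 4 * t := by
      rw [sub_self, sub_neg_eq_add, max_eq_right (by nlinarith [sq_nonneg (τ + τ)])]
      nlinarith
    have h2 : (τ - -τ) ^ 2 = 4 * t := by nlinarith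
    rw [this, h2]
    field_simp
    ring
  · have hpos : 0 < 1 + q * t := by positivity
    have e1 : 1 / (1 + q * t) - t / (1 + q * t) = (1 - t) / (1 + q * t) := by ring
    have e2 : 1 / (1 + q * t) + t / (1 + q * t) = 1 + (1 - q) * t / (1 + q * t) := by
      field_simp; ring
    rw [e1, e2]
    have hber : 1 + ρ * ((1 - q) * t / (1 + q * t)) ≤ (1 + (1 - q) * t / (1 + q * t)) ^ ρ := by
      refine one_add_mul_self_le_rpow_one_add ?_ (by linarith)
      have : 0 ≤ (1 - q) * t / (1 + q * t) :=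
        div_nonneg (mul_nonneg (by linarith) ht0.le) hpos.le
      linarith
    refine lt_of_lt_of_le ?_ (mul_le_mul_of_nonneg_left hber
      (div_nonneg (by linarith) hpos.le))
    have e3 : (1 - t) / (1 + q * t) * (1 + ρ * ((1 - q) * t / (1 + q * t))) =
        ((1 - t) * (1 + q * t + ρ * (1 - q) * t)) / (1 + q * t) ^ 2 := by
      field_simp
    rw [e3, lt_div_iff₀ (by positivity), one_mul]
    have h10 : 0 < t * (ρ * (1 - q) - (1 + q) - t * C) := mul_pos ht0 (by linarith)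
    have h11 : (1 - t) * (1 + q * t + ρ * (1 - q) * t) - (1 + q * t) ^ 2 =
        t * (ρ * (1 - q) - (1 + q) - t * C) := by rw [hC]; ring
    linarith

/-- The plane does not have the angle `∠_{-γ}` for `γ > 1`: its unit sphere has corners. -/
lemma plane_not_hasAngle_neg {a γ : ℝ} (ha : 0 < a) (h : 1 < γ) :
    ¬ HasAngle (-γ) (Plane a) := by
  set m := 2 * a + 1 with hm
  have hm1 : 1 < m := by linarith
  set τ := min (1 / 2) ((γ - 1) / (4 * (m + 1))) with hτ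
  have ht0 : 0 < τ := lt_min (by norm_num) (div_pos (by linarith) (by linarith))
  have ht1 : τ ≤ 1 / 2 := min_le_left _ _
  have ht2 : 4 * (m + 1) * τ ≤ γ - 1 := by
    have : τ ≤ (γ - 1) / (4 * (m + 1)) := min_le_right _ _
    rw [le_div_iff₀ (by linarith)] at this
    linarith
  set w := 1 - τ + τ ^ 2 / 2 with hw
  have hw0 : 1 / 2 < w := by nlinarith
  have hw1 : w < 1 := by nlinarith
  set e := τ - τ ^ 2 / 2 with he
  have he0 : τ / 2 < e := by nlinarith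
  have he1 : e < τ := by nlinarith
  have hn2 : 0 < m * w + e := by nlinarith
  set n := Real.sqrt (m * w + e) with hn
  have hnn : n ^ 2 = m * w + e := Real.sq_sqrt hn2.le
  have hnpos : 0 < n := Real.sqrt_pos.2 hn2
  have hx : ‖vec a 1 (1 - τ)‖ = n := by
    rw [← Real.sqrt_sq (norm_nonneg (vec a 1 (1 - τ))), norm_sq' ha.le, hn,
      max_eq_left (by nlinarith)]
    congr 1
    rw [hm, hw, he]; ring
  have hy : ‖vec a (1 - τ) 1‖ = n := by
    rw [← Real.sqrt_sq (norm_nonneg (vec a (1 - τ) 1)), norm_sq' ha.le, hn,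
      max_eq_right (by nlinarith)]
    congr 1
    rw [hm, hw, he]; ring
  refine not_hasAngle_of (-γ) (vec a 1 (1 - τ)) (vec a (1 - τ) 1) n
    (m * (1 - τ / 2) ^ 2 / (m * w + e)) (m * (τ / 2) ^ 2 / (m * w + e)) hnpos hx hy ?_ ?_ ?_
  · rw [vec_add, norm_sq' ha.le, hnn]
    have : (1 - τ + 1) ^ 2 = (1 + (1 - τ)) ^ 2 := by ring
    rw [this, max_self]
    field_simp
    rw [hm]; ring
  · rw [vec_sub, norm_sq' ha.le, hnn]
    have : (1 - τ - 1) ^ 2 = (1 - (1 - τ)) ^ 2 := by ring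
    rw [this, max_self]
    field_simp
    rw [hm]; ring
  · have e1 : m * (1 - τ / 2) ^ 2 / (m * w + e) - m * (τ / 2) ^ 2 / (m * w + e) =
        m * (1 - τ) / (m * w + e) := by
      rw [← sub_div]; congr 1; ring
    have e2 : m * (1 - τ / 2) ^ 2 / (m * w + e) + m * (τ / 2) ^ 2 / (m * w + e) =
        m * w / (m * w + e) := by
      rw [← add_div]; congr 1; rw [hw]; ring
    rw [e1, e2]
    set v := m * w / (m * w + e) with hv
    have hv0 : 0 < v := by positivity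
    have hv1 : v < 1 := by
      rw [hv, div_lt_one hn2]; nlinarith
    -- `v ^ (-γ) = v⁻¹ * v ^ (-(γ - 1))` and `v ^ (-(γ-1)) ≥ 1 + (γ - 1) (1 - v)`
    have h3 : v ^ (-γ) = v⁻¹ * v ^ (-(γ - 1)) := by
      rw [← Real.rpow_neg_one, ← Real.rpow_add hv0]; congr 1; ring
    have h4 : 1 + (γ - 1) * (1 - v) ≤ v ^ (-(γ - 1)) := by
      rw [Real.rpow_def_of_pos hv0]
      have h5 : Real.log v ≤ v - 1 := Real.log_le_sub_one_of_pos hv0
      calc 1 + (γ - 1) * (1 - v) ≤ Real.log v * -(γ - 1) + 1 := by nlinarith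
        _ ≤ _ := Real.add_one_le_exp _
    rw [h3]
    have h6 : m * (1 - τ) / (m * w + e) * v⁻¹ = (1 - τ) / w := by
      rw [hv]; field_simp
    rw [← mul_assoc, h6]
    have h7 : 0 < (1 - τ) / w := div_pos (by linarith) (by linarith)
    refine lt_of_lt_of_le ?_ (mul_le_mul_of_nonneg_left h4 h7.le)
    have h8 : 1 - v = e / (m * w + e) := by rw [hv]; field_simp; ring
    have h9 : τ / (2 * (m + 1)) ≤ 1 - v := by
      rw [h8, div_le_div_iff₀ (by linarith) hn2]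
      have : m * w + e ≤ m + 1 := by nlinarith
      nlinarith
    have h10 : (γ - 1) * (τ / (2 * (m + 1))) ≤ (γ - 1) * (1 - v) :=
      mul_le_mul_of_nonneg_left h9 (by linarith)
    have h11 : 2 * τ ^ 2 ≤ (γ - 1) * (τ / (2 * (m + 1))) := by
      rw [mul_div_assoc', le_div_iff₀ (by linarith)]
      have h12 := mul_le_mul_of_nonneg_right ht2 ht0.le
      linarith
    rw [div_mul_eq_mul_div, lt_div_iff₀ (by linarith), one_mul]
    have h12 : 2 * τ ^ 2 ≤ (γ - 1) * (1 - v) := h11.trans h10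
    have h13 : (1 - τ) * (2 * τ ^ 2) ≤ (1 - τ) * ((γ - 1) * (1 - v)) :=
      mul_le_mul_of_nonneg_left h12 (by linarith)
    have h14 : 1 / 2 * (2 * τ ^ 2) ≤ (1 - τ) * (2 * τ ^ 2) :=
      mul_le_mul_of_nonneg_right (by linarith) (by positivity)
    have h15 : 0 < τ ^ 2 := by positivity
    have h16 : (1 - τ) * (1 + (γ - 1) * (1 - v)) = (1 - τ) + (1 - τ) * ((γ - 1) * (1 - v)) := by
      ring
    rw [h16, hw]
    linarith

/-- Coordinate functional. -/
noncomputable def coord₁ {a : ℝ} (ha : 0 < a) : StrongDual ℝ (Plane a) :=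
  LinearMap.mkContinuous (LinearMap.fst ℝ ℝ ℝ ∘ₗ (toProd a).toLinearMap)
    1 (by
      intro x
      obtain ⟨u, v, rfl⟩ := exists_vec x
      have h := norm_sq' ha.le u v
      rw [one_mul]
      apply abs_le_of_sq_le_sq _ (norm_nonneg _)
      rw [h]
      have : (LinearMap.fst ℝ ℝ ℝ ∘ₗ (toProd a).toLinearMap) (vec a u v) = u := rfl
      rw [this]
      nlinarith [le_max_left (u ^ 2) (v ^ 2), sq_nonneg u, sq_nonneg v])

/-- Coordinate functional. -/
noncomputable def coord₂ {a : ℝ} (ha : 0 < a) : StrongDual ℝ (Plane a) :=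
  LinearMap.mkContinuous (LinearMap.snd ℝ ℝ ℝ ∘ₗ (toProd a).toLinearMap)
    1 (by
      intro x
      obtain ⟨u, v, rfl⟩ := exists_vec x
      have h := norm_sq' ha.le u v
      rw [one_mul]
      apply abs_le_of_sq_le_sq _ (norm_nonneg _)
      rw [h]
      have : (LinearMap.snd ℝ ℝ ℝ ∘ₗ (toProd a).toLinearMap) (vec a u v) = v := rfl
      rw [this]
      nlinarith [le_max_right (u ^ 2) (v ^ 2), sq_nonneg u, sq_nonneg v])

/-- The functional `(u, v) ↦ c u + d v`. -/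
noncomputable def func {a : ℝ} (ha : 0 < a) (c d : ℝ) : StrongDual ℝ (Plane a) :=
  c • coord₁ ha + d • coord₂ ha

lemma func_apply {a : ℝ} (ha : 0 < a) (c d u v : ℝ) :
    func ha c d (vec a u v) = c * u + d * v := rfl

lemma func_add {a : ℝ} (ha : 0 < a) (c d c' d' : ℝ) :
    func ha c d + func ha c' d' = func ha (c + c') (d + d') := by
  ext x
  obtain ⟨u, v, rfl⟩ := exists_vec x
  rw [add_apply, func_apply, func_apply, func_apply]; ring

lemma func_sub {a : ℝ} (ha : 0 < a) (c d c' d' : ℝ) :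
    func ha c d - func ha c' d' = func ha (c - c') (d - d') := by
  ext x
  obtain ⟨u, v, rfl⟩ := exists_vec x
  rw [sub_apply, func_apply, func_apply, func_apply]; ring

/-- Exact norm of a functional with a norming vector. -/
lemma norm_func {a : ℝ} (ha : 0 < a) (c d n : ℝ) (hn : 0 ≤ n)
    (hb : ∀ u v : ℝ, (c * u + d * v) ^ 2 ≤ n ^ 2 * (a * (u ^ 2 + v ^ 2) + max (u ^ 2) (v ^ 2)))
    (u₀ v₀ N₀ : ℝ) (hN₀ : 0 < N₀) (hN : a * (u₀ ^ 2 + v₀ ^ 2) + max (u₀ ^ 2) (v₀ ^ 2) = N₀ ^ 2)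
    (hv : c * u₀ + d * v₀ = n * N₀) : ‖func ha c d‖ = n := by
  apply le_antisymm
  · refine ContinuousLinearMap.opNorm_le_bound _ hn fun x => ?_
    obtain ⟨u, v, rfl⟩ := exists_vec x
    rw [func_apply, Real.norm_eq_abs]
    apply abs_le_of_sq_le_sq _ (by positivity)
    rw [mul_pow, norm_sq' ha.le]
    exact hb u v
  · have h1 := (func ha c d).le_opNorm (vec a u₀ v₀)
    have h2 : ‖vec a u₀ v₀‖ = N₀ := by
      rw [← Real.sqrt_sq (norm_nonneg (vec a u₀ v₀)), norm_sq' ha.le, hN, Real.sqrt_sq hN₀.le]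
    rw [func_apply, h2, hv, Real.norm_eq_abs, abs_of_nonneg (by positivity)] at h1
    exact le_of_mul_le_mul_right h1 hN₀

/-- The dual of the plane is 2-uniformly smooth with constant `(a + 1) / a`. -/
lemma dual_smooth {X : Type} [NormedAddCommGroup X] [NormedSpace ℝ X] {q : ℝ} (hq : 0 < q)
    (hX : ∀ x y : X, ‖x + y‖ ^ 2 + q * ‖x - y‖ ^ 2 ≤ 2 * (‖x‖ ^ 2 + ‖y‖ ^ 2))
    (f g : StrongDual ℝ X) (hf : ‖f‖ = 1) (hg : ‖g‖ = 1) :
    4 ≤ ‖f + g‖ ^ 2 + q⁻¹ * ‖f - g‖ ^ 2 := by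
  by_contra hlt
  push Not at hlt
  set K := ‖f + g‖ ^ 2 + q⁻¹ * ‖f - g‖ ^ 2 with hK
  have hK0 : 0 ≤ K := by positivity
  have hsK : Real.sqrt K < 2 := by
    rw [show (2 : ℝ) = Real.sqrt 4 by
      rw [show (4 : ℝ) = 2 ^ 2 by norm_num, Real.sqrt_sq (by norm_num)]]
    exact Real.sqrt_lt_sqrt hK0 hlt
  have key : ∀ h : StrongDual ℝ X, ‖h‖ = 1 → ∃ x : X, ‖x‖ ≤ 1 ∧ Real.sqrt K / 2 < h x := by
    intro h hh
    obtain ⟨x, hx, hrx⟩ := ContinuousLinearMap.exists_lt_apply_of_lt_opNorm h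
      (r := Real.sqrt K / 2) (by rw [hh]; linarith)
    rw [Real.norm_eq_abs] at hrx
    rcases le_total 0 (h x) with h0 | h0
    · exact ⟨x, hx.le, by rwa [abs_of_nonneg h0] at hrx⟩
    · exact ⟨-x, by rw [norm_neg]; exact hx.le, by rwa [map_neg, ← abs_of_nonpos h0]⟩
  obtain ⟨x, hx, hfx⟩ := key f hf
  obtain ⟨y, hy, hgy⟩ := key g hg
  have h1 : 2 * (f x + g y) = (f + g) (x + y) + (f - g) (x - y) := by
    simp only [add_apply, sub_apply, map_add, map_sub]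
    ring
  have h2 : (f + g) (x + y) ≤ ‖f + g‖ * ‖x + y‖ :=
    (le_abs_self _).trans ((f + g).le_opNorm _)
  have h3 : (f - g) (x - y) ≤ ‖f - g‖ * ‖x - y‖ :=
    (le_abs_self _).trans ((f - g).le_opNorm _)
  have h4 : ‖x + y‖ ^ 2 + q * ‖x - y‖ ^ 2 ≤ 4 := by
    have := hX x y
    nlinarith [norm_nonneg x, norm_nonneg y]
  -- Cauchy-Schwarz
  have h5 : (‖f + g‖ * ‖x + y‖ + ‖f - g‖ * ‖x - y‖) ^ 2 ≤
      K * (‖x + y‖ ^ 2 + q * ‖x - y‖ ^ 2) := by
    have hqi : q⁻¹ * q = 1 := inv_mul_cancel₀ hq.ne'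
    have e : K * (‖x + y‖ ^ 2 + q * ‖x - y‖ ^ 2) -
        (‖f + g‖ * ‖x + y‖ + ‖f - g‖ * ‖x - y‖) ^ 2 =
        q * (‖f + g‖ * ‖x - y‖ - q⁻¹ * (‖f - g‖ * ‖x + y‖)) ^ 2 := by
      rw [hK]
      have : q⁻¹ = 1 / q := by rw [one_div]
      rw [this]
      field_simp
      ring
    have : 0 ≤ q * (‖f + g‖ * ‖x - y‖ - q⁻¹ * (‖f - g‖ * ‖x + y‖)) ^ 2 := by positivity
    linarith
  have h6 : (‖f + g‖ * ‖x + y‖ + ‖f - g‖ * ‖x - y‖) ^ 2 ≤ (2 * Real.sqrt K) ^ 2 := by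
    rw [mul_pow, Real.sq_sqrt hK0]
    nlinarith
  have h7 : ‖f + g‖ * ‖x + y‖ + ‖f - g‖ * ‖x - y‖ ≤ 2 * Real.sqrt K :=
    abs_le_of_sq_le_sq' h6 (by positivity) |>.2
  linarith

/-- The dual plane has all angles `∠_{-δ}`, `1 ≤ δ ≤ 2a + 1`. -/
lemma dual_hasAngle {a δ : ℝ} (ha : 0 < a) (hδ : 1 ≤ δ) (h : δ ≤ 2 * a + 1) :
    HasAngle (-δ) (StrongDual ℝ (Plane a)) := by
  have hq : 0 < a / (a + 1) := div_pos ha (by linarith)
  refine hasAngle_of_smooth (Q := (a / (a + 1))⁻¹) ?_ hδ ?_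
    (dual_smooth hq (plane_convex ha))
  · rw [inv_div, le_div_iff₀ ha]; linarith
  · rw [inv_div]
    have h1 : (a + 1) / a - 1 = 1 / a := by field_simp; ring
    have h2 : (a + 1) / a + 1 = (2 * a + 1) / a := by field_simp; ring
    rw [h1, h2, mul_one_div]
    gcongr

/-- The dual plane does not have the angle `∠_{-δ}` for `δ > 2a + 1`. -/
lemma dual_not_hasAngle {a δ : ℝ} (ha : 0 < a) (h : 2 * a + 1 < δ) :
    ¬ HasAngle (-δ) (StrongDual ℝ (Plane a)) := by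
  have ha1 : 0 < a + 1 := by linarith
  set Q := (a + 1) / a with hQ
  have hQ1 : 1 < Q := by rw [hQ, one_lt_div ha]; linarith
  have hQa : a * Q = a + 1 := by rw [hQ]; field_simp
  have hgap : 0 < δ * (Q - 1) - (Q + 1) := by
    have h1 : Q - 1 = 1 / a := by rw [hQ]; field_simp; ring
    have h2 : Q + 1 = (2 * a + 1) / a := by rw [hQ]; field_simp; ring
    rw [h1, h2, mul_one_div, ← sub_div]
    exact div_pos (by linarith) ha
  set C := Q + Q ^ 2 + δ * (Q - 1) with hC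
  have hCpos : 0 < C := by nlinarith
  set t := min (min (1 / 2) ((a / (a + 1)) ^ 2)) ((δ * (Q - 1) - (Q + 1)) / (2 * C)) with ht
  have ht0 : 0 < t := lt_min (lt_min (by norm_num) (by positivity)) (by positivity)
  have ht1 : t ≤ 1 / 2 := (min_le_left _ _).trans (min_le_left _ _)
  have ht3 : t ≤ (a / (a + 1)) ^ 2 := (min_le_left _ _).trans (min_le_right _ _)
  have ht2 : t * C < δ * (Q - 1) - (Q + 1) := by
    have : t ≤ (δ * (Q - 1) - (Q + 1)) / (2 * C) := min_le_right _ _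
    rw [le_div_iff₀ (by positivity)] at this
    nlinarith
  set τ := Real.sqrt t with hτ
  have hτ2 : τ ^ 2 = t := Real.sq_sqrt ht0.le
  have hτ0 : 0 ≤ τ := Real.sqrt_nonneg _
  -- the common norm
  have hn2 : 0 < (1 + Q * t) / (a + 1) := by positivity
  set n := Real.sqrt ((1 + Q * t) / (a + 1)) with hn
  have hnn : n ^ 2 = (1 + Q * t) / (a + 1) := Real.sq_sqrt hn2.le
  have hnpos : 0 < n := Real.sqrt_pos.2 hn2
  have hnn' : n ^ 2 = 1 / (a + 1) + t / a := by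
    rw [hnn, hQ]; field_simp
  have hgen : ∀ σ : ℝ, σ ^ 2 = t → ‖func ha 1 σ‖ = n := by
    intro σ hσ
    refine norm_func ha 1 σ n hnpos.le ?_ (1 / (a + 1)) (σ / a) n hnpos ?_ ?_
    · intro u v
      have hle : (a + 1) * u ^ 2 + a * v ^ 2 ≤ a * (u ^ 2 + v ^ 2) + max (u ^ 2) (v ^ 2) := by
        nlinarith [le_max_left (u ^ 2) (v ^ 2)]
      calc (1 * u + σ * v) ^ 2 ≤ n ^ 2 * ((a + 1) * u ^ 2 + a * v ^ 2) := by
            rw [hnn', ← hσ]
            have : (1 / (a + 1) + σ ^ 2 / a) * ((a + 1) * u ^ 2 + a * v ^ 2) -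
              (1 * u + σ * v) ^ 2 = a * (a + 1) * (σ * u / a - v / (a + 1)) ^ 2 := by
              field_simp; ring
            have h2 : 0 ≤ a * (a + 1) * (σ * u / a - v / (a + 1)) ^ 2 := by positivity
            linarith
        _ ≤ _ := by gcongr
    · have hmax : max ((1 / (a + 1)) ^ 2) ((σ / a) ^ 2) = (1 / (a + 1)) ^ 2 := by
        apply max_eq_left
        rw [div_pow, hσ, div_le_iff₀ (by positivity)]
        calc t ≤ (a / (a + 1)) ^ 2 := ht3
          _ = (1 / (a + 1)) ^ 2 * a ^ 2 := by ring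
      rw [hmax, hnn', ← hσ]
      field_simp
      ring
    · rw [← sq, hnn', ← hσ]; field_simp
  have hfun1 : ‖func ha 2 0‖ = 2 / Real.sqrt (a + 1) := by
    refine norm_func ha 2 0 _ (by positivity) ?_ 1 0 (Real.sqrt (a + 1)) (Real.sqrt_pos.2 ha1) ?_ ?_
    · intro u v
      rw [div_pow, Real.sq_sqrt ha1.le, div_mul_eq_mul_div, le_div_iff₀ ha1]
      nlinarith [le_max_left (u ^ 2) (v ^ 2), mul_nonneg ha.le (sq_nonneg v)]
    · rw [Real.sq_sqrt ha1.le, max_eq_left (by norm_num)]; ring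
    · rw [div_mul_cancel₀ _ (Real.sqrt_pos.2 ha1).ne']; ring
  have hfun2 : ‖func ha 0 (2 * τ)‖ = 2 * τ / Real.sqrt (a + 1) := by
    refine norm_func ha 0 (2 * τ) _ (by positivity) ?_ 0 1 (Real.sqrt (a + 1))
      (Real.sqrt_pos.2 ha1) ?_ ?_
    · intro u v
      rw [div_pow, Real.sq_sqrt ha1.le, div_mul_eq_mul_div, le_div_iff₀ ha1]
      have h1 : (a + 1) * v ^ 2 ≤ a * (u ^ 2 + v ^ 2) + max (u ^ 2) (v ^ 2) := by
        nlinarith [le_max_right (u ^ 2) (v ^ 2), mul_nonneg ha.le (sq_nonneg u)]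
      calc (0 * u + 2 * τ * v) ^ 2 * (a + 1) = (2 * τ) ^ 2 * ((a + 1) * v ^ 2) := by ring
        _ ≤ _ := by gcongr
    · rw [Real.sq_sqrt ha1.le, max_eq_right (by norm_num)]; ring
    · rw [div_mul_cancel₀ _ (Real.sqrt_pos.2 ha1).ne']; ring
  refine not_hasAngle_of (-δ) (func ha 1 τ) (func ha 1 (-τ)) n (1 / (1 + Q * t)) (t / (1 + Q * t))
    hnpos (hgen τ hτ2) (hgen (-τ) (by rw [neg_sq, hτ2])) ?_ ?_ ?_
  · have : func ha (1 + 1) (τ + -τ) = func ha 2 0 := by norm_num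
    rw [func_add, this, hfun1, hnn, div_pow, Real.sq_sqrt ha1.le]
    field_simp
    ring
  · have : func ha (1 - 1) (τ - -τ) = func ha 0 (2 * τ) := by
      rw [sub_self, sub_neg_eq_add, two_mul]
    rw [func_sub, this, hfun2, hnn, div_pow, Real.sq_sqrt ha1.le, mul_pow, hτ2]
    field_simp
    ring
  · have hpos : 0 < 1 + Q * t := by positivity
    have e1 : 1 / (1 + Q * t) - t / (1 + Q * t) = (1 - t) / (1 + Q * t) := by ring
    have e2 : 1 / (1 + Q * t) + t / (1 + Q * t) = (1 + t) / (1 + Q * t) := by ring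
    rw [e1, e2]
    set v := (1 + t) / (1 + Q * t) with hv
    have hv0 : 0 < v := by positivity
    have h4 : 1 + δ * (1 - v) ≤ v ^ (-δ) := by
      rw [Real.rpow_def_of_pos hv0]
      have h5 : Real.log v ≤ v - 1 := Real.log_le_sub_one_of_pos hv0
      have hδ0 : 0 < δ := by linarith
      calc 1 + δ * (1 - v) ≤ Real.log v * -δ + 1 := by nlinarith
        _ ≤ _ := Real.add_one_le_exp _
    refine lt_of_lt_of_le ?_ (mul_le_mul_of_nonneg_left h4
      (div_nonneg (by linarith) hpos.le))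
    have h8 : 1 - v = (Q - 1) * t / (1 + Q * t) := by rw [hv]; field_simp; ring
    rw [h8]
    have e3 : (1 - t) / (1 + Q * t) * (1 + δ * ((Q - 1) * t / (1 + Q * t))) =
        ((1 - t) * (1 + Q * t + δ * (Q - 1) * t)) / (1 + Q * t) ^ 2 := by
      field_simp
    rw [e3, lt_div_iff₀ (by positivity), one_mul]
    have h10 : 0 < t * (δ * (Q - 1) - (Q + 1) - t * C) := mul_pos ht0 (by linarith)
    have h11 : (1 - t) * (1 + Q * t + δ * (Q - 1) * t) - (1 + Q * t) ^ 2 =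
        t * (δ * (Q - 1) - (Q + 1) - t * C) := by rw [hC]; ring
    linarith

end Pool.Agent.H51.Angle
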