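import Mathlib
import Pool.Agent.H51.BeckerMap

/-!
# Sharpness of the constant in Becker's criterion

For `κ > 1` the function `f(ζ) = exp (κ · inv (ρ (1 + ζ) - 1))` on the unit disk satisfies
`(1 - |ζ|²) |f''(ζ)/f'(ζ)| ≤ 1 + 4 (κ - 1)` and is not injective when `ρ` is large.
-/

open Complex Set Filter Topology

namespace Pool.Agent.H51.Becker

/-- The function. -/
noncomputable def fn (κ ρ : ℝ) (ζ : ℂ) : ℂ := exp (κ * inv (ρ * (1 + ζ) - 1))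

/-- Its derivative on the disk. -/
noncomputable def fn' (κ ρ : ℝ) (ζ : ℂ) : ℂ :=
  κ * ρ * exp (κ * inv (ρ * (1 + ζ) - 1)) * (1 + exp (inv (ρ * (1 + ζ) - 1)))⁻¹

lemma mem_half {ρ : ℝ} (hρ : 0 < ρ) {ζ : ℂ} (hζ : ‖ζ‖ < 1) :
    -1 < ((ρ : ℂ) * (1 + ζ) - 1).re := by
  have h1 : -1 < ζ.re := by
    have := (abs_lt.1 (lt_of_le_of_lt (abs_re_le_norm ζ) hζ)).1
    exact this
  have h2 : ((ρ : ℂ) * (1 + ζ) - 1).re = ρ * (1 + ζ.re) - 1 := by simp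
  rw [h2]
  have : 0 < ρ * (1 + ζ.re) := mul_pos hρ (by linarith)
  linarith

lemma hasDerivAt_inner {ρ : ℝ} (hρ : 0 < ρ) {ζ : ℂ} (hζ : ‖ζ‖ < 1) :
    HasDerivAt (fun z : ℂ => inv (ρ * (1 + z) - 1))
      ((1 + exp (inv (ρ * (1 + ζ) - 1)))⁻¹ * ρ) ζ := by
  have h1 : HasDerivAt (fun z : ℂ => (ρ : ℂ) * (1 + z) - 1) ρ ζ := by
    have := (((hasDerivAt_id ζ).const_add 1).const_mul (ρ : ℂ)).sub_const 1
    simpa using this
  exact (hasDerivAt_inv (mem_half hρ hζ)).comp ζ h1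

lemma hasDerivAt_fn {κ ρ : ℝ} (hρ : 0 < ρ) {ζ : ℂ} (hζ : ‖ζ‖ < 1) :
    HasDerivAt (fn κ ρ) (fn' κ ρ ζ) ζ := by
  have h := ((hasDerivAt_inner hρ hζ).const_mul (κ : ℂ)).cexp
  refine h.congr_deriv ?_
  simp only [fn']
  ring

lemma hasDerivAt_fn' {κ ρ : ℝ} (hρ : 0 < ρ) {ζ : ℂ} (hζ : ‖ζ‖ < 1) :
    HasDerivAt (fn' κ ρ)
      (fn' κ ρ ζ * (ρ * ((1 + (κ - 1) * (1 + exp (inv (ρ * (1 + ζ) - 1)))) /
        (1 + exp (inv (ρ * (1 + ζ) - 1))) ^ 2))) ζ := by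
  have hA : 1 + exp (inv (ρ * (1 + ζ) - 1)) ≠ 0 :=
    one_add_exp_ne_zero (inv_mem (mem_half hρ hζ))
  have hin := hasDerivAt_inner hρ hζ
  have h1 := (hin.const_mul (κ : ℂ)).cexp
  have h2 := (hin.cexp.const_add 1).inv hA
  have h3 := (h1.const_mul ((κ : ℂ) * ρ)).mul h2
  refine h3.congr_deriv ?_
  simp only [fn', Pi.inv_apply]
  field_simp
  ring

/-- The key inequality. -/
lemma key_ineq {κ : ℝ} (hκ : 1 ≤ κ) {τ : ℂ} (hτ : 0 < (1 + Lam τ).re) :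
    2 * (1 + Lam τ).re * ‖1 + (κ - 1) * (1 + exp τ)‖ ≤ (1 + 4 * (κ - 1)) * ‖1 + exp τ‖ ^ 2 := by
  set A := 1 + exp τ with hA
  have hLA : (1 + Lam τ).re = τ.re + A.re := by
    simp only [Lam, hA, add_re, one_re]; ring
  have hnorm : ‖A‖ ^ 2 = 1 + 2 * (Real.exp τ.re * Real.cos τ.im) + Real.exp (2 * τ.re) := by
    have h1 : A.re = 1 + Real.exp τ.re * Real.cos τ.im := by
      rw [hA, add_re, one_re, exp_re]
    have h2 : A.im = Real.exp τ.re * Real.sin τ.im := by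
      rw [hA, add_im, one_im, exp_im]; ring
    rw [← Complex.normSq_eq_norm_sq, Complex.normSq_apply, h1, h2, two_mul τ.re, Real.exp_add]
    have := Real.sin_sq_add_cos_sq τ.im
    have hs : Real.sin τ.im ^ 2 = 1 - Real.cos τ.im ^ 2 := by linarith
    ring_nf
    rw [hs]
    ring
  have hAre : A.re = 1 + Real.exp τ.re * Real.cos τ.im := by
    rw [hA, add_re, one_re, exp_re]
  -- first estimate
  have e1 : 2 * (1 + Lam τ).re ≤ ‖A‖ ^ 2 := by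
    rw [hLA, hAre, hnorm]
    have := Real.add_one_le_exp (2 * τ.re)
    linarith
  -- second estimate
  have e2 : (1 + Lam τ).re ≤ 2 * ‖A‖ := by
    have h1 : A.re ≤ ‖A‖ := re_le_norm A
    have h2 : τ.re ≤ ‖A‖ := by
      have h3 : Real.exp τ.re - 1 ≤ ‖A‖ := by
        have : ‖exp τ‖ ≤ ‖A‖ + 1 := by
          calc ‖exp τ‖ = ‖A - 1‖ := by rw [hA]; ring_nf
            _ ≤ ‖A‖ + ‖(1 : ℂ)‖ := norm_sub_le _ _
            _ = ‖A‖ + 1 := by simp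
        rw [norm_exp] at this
        linarith
      have := Real.add_one_le_exp τ.re
      linarith
    rw [hLA]; linarith
  have e3 : ‖1 + ((κ : ℂ) - 1) * A‖ ≤ 1 + (κ - 1) * ‖A‖ := by
    calc ‖1 + ((κ : ℂ) - 1) * A‖ ≤ ‖(1 : ℂ)‖ + ‖((κ : ℂ) - 1) * A‖ := norm_add_le _ _
      _ = 1 + (κ - 1) * ‖A‖ := by
        rw [norm_mul, norm_one]
        have : ((κ : ℂ) - 1) = ((κ - 1 : ℝ) : ℂ) := by push_cast; ring
        rw [this, norm_real, Real.norm_eq_abs, abs_of_nonneg (by linarith)]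
  have hA0 : 0 ≤ ‖A‖ := norm_nonneg A
  calc 2 * (1 + Lam τ).re * ‖1 + ((κ : ℂ) - 1) * A‖
      ≤ 2 * (1 + Lam τ).re * (1 + (κ - 1) * ‖A‖) := by gcongr
    _ = 2 * (1 + Lam τ).re + 2 * ((κ - 1) * ‖A‖) * (1 + Lam τ).re := by ring
    _ ≤ ‖A‖ ^ 2 + 2 * ((κ - 1) * ‖A‖) * (2 * ‖A‖) := by
        have : 0 ≤ 2 * ((κ - 1) * ‖A‖) := by
          have := mul_nonneg (sub_nonneg.2 hκ) hA0
          linarith
        gcongr
    _ = (1 + 4 * (κ - 1)) * ‖A‖ ^ 2 := by ring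

lemma fn'_ne_zero {κ ρ : ℝ} (hκ : 0 < κ) (hρ : 0 < ρ) {ζ : ℂ} (hζ : ‖ζ‖ < 1) :
    fn' κ ρ ζ ≠ 0 := by
  have hA : 1 + exp (inv (ρ * (1 + ζ) - 1)) ≠ 0 :=
    one_add_exp_ne_zero (inv_mem (mem_half hρ hζ))
  have hκ' : (κ : ℂ) ≠ 0 := by exact_mod_cast hκ.ne'
  have hρ' : (ρ : ℂ) ≠ 0 := by exact_mod_cast hρ.ne'
  simp only [fn']
  exact mul_ne_zero (mul_ne_zero (mul_ne_zero hκ' hρ') (exp_ne_zero _)) (inv_ne_zero hA)

lemma norm_bound {κ ρ : ℝ} (hκ : 1 ≤ κ) (hρ : 0 < ρ) {ζ : ℂ} (hζ : ‖ζ‖ < 1) :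
    (1 - ‖ζ‖ ^ 2) * ‖(ρ : ℂ) * ((1 + ((κ : ℂ) - 1) * (1 + exp (inv (ρ * (1 + ζ) - 1)))) /
        (1 + exp (inv (ρ * (1 + ζ) - 1))) ^ 2)‖ ≤ 1 + 4 * (κ - 1) := by
  have hmem := mem_half hρ hζ
  set σ : ℂ := ρ * (1 + ζ) - 1 with hσ
  set τ := inv σ with hτ
  have hLam : Lam τ = σ := Lam_inv hmem
  have hA : 1 + exp τ ≠ 0 := one_add_exp_ne_zero (inv_mem hmem)
  have hApos : 0 < ‖1 + exp τ‖ ^ 2 := by positivity
  have hre : (1 + Lam τ).re = ρ * (1 + ζ.re) := by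
    rw [hLam, hσ]; simp
  have hpos : 0 < (1 + Lam τ).re := by
    rw [hLam, add_re, one_re]; linarith
  have hkey := key_ineq hκ hpos
  have h1 : (1 - ‖ζ‖ ^ 2) * ρ ≤ 2 * (1 + Lam τ).re := by
    rw [hre]
    have h2 : ‖ζ‖ ^ 2 = ζ.re ^ 2 + ζ.im ^ 2 := by
      rw [← Complex.normSq_eq_norm_sq, Complex.normSq_apply]; ring
    rw [h2]
    nlinarith [mul_nonneg hρ.le (sq_nonneg (ζ.re + 1)), mul_nonneg hρ.le (sq_nonneg ζ.im)]
  rw [norm_mul, norm_div, norm_pow, norm_real, Real.norm_eq_abs, abs_of_pos hρ, ← mul_assoc,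
    mul_div_assoc', div_le_iff₀ hApos]
  calc (1 - ‖ζ‖ ^ 2) * ρ * ‖1 + ((κ : ℂ) - 1) * (1 + exp τ)‖
      ≤ 2 * (1 + Lam τ).re * ‖1 + ((κ : ℂ) - 1) * (1 + exp τ)‖ := by gcongr
    _ ≤ _ := hkey

/-- Non-injectivity. -/
lemma exists_not_injective {κ : ℝ} (hκ : 1 < κ) :
    ∃ ρ : ℝ, 0 < ρ ∧ ∃ ζ₁ ζ₂ : ℂ, ‖ζ₁‖ < 1 ∧ ‖ζ₂‖ < 1 ∧ ζ₁ ≠ ζ₂ ∧ fn κ ρ ζ₁ = fn κ ρ ζ₂ := by
  have hκ0 : 0 < κ := by linarith
  set t := Real.pi / κ with ht
  have ht0 : 0 < t := div_pos Real.pi_pos hκ0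
  have htπ : t < Real.pi := by
    rw [ht, div_lt_iff₀ hκ0]
    nlinarith [Real.pi_pos]
  -- the two points in the half plane
  set s : ℂ := 1 + Lam (t * I) with hs
  have hsre : s.re = 1 + Real.cos t := by
    rw [hs, add_re, one_re, Lam_re]; simp
  have hsim : s.im = t + Real.sin t := by
    rw [hs, add_im, one_im, Lam_im]; simp
  have hspos : 0 < s.re := by
    rw [hsre]
    have : -1 < Real.cos t := by
      rw [← Real.cos_pi]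
      exact Real.cos_lt_cos_of_nonneg_of_le_pi ht0.le le_rfl htπ
    linarith
  have hsin : 0 < Real.sin t := Real.sin_pos_of_pos_of_lt_pi ht0 htπ
  have hs0 : s ≠ 0 := by
    intro h; rw [h] at hspos; simp at hspos
  set ρ := ‖s‖ ^ 2 / s.re with hρ
  have hρpos : 0 < ρ := by positivity
  have hρ0 : (ρ : ℂ) ≠ 0 := by exact_mod_cast hρpos.ne'
  have hρs : ρ * s.re = ‖s‖ ^ 2 := by rw [hρ]; field_simp
  have hnorm : ∀ w : ℂ, ‖w‖ = ‖s‖ → w.re = s.re → ‖w / ρ - 1‖ < 1 := by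
    intro w hw hwre
    have h1 : w / ρ - 1 = (w - ρ) / ρ := by field_simp
    rw [h1, norm_div, norm_real, Real.norm_eq_abs, abs_of_pos hρpos, div_lt_one hρpos]
    apply lt_of_pow_lt_pow_left₀ 2 hρpos.le
    have h2 : ‖w - ρ‖ ^ 2 = ‖w‖ ^ 2 - 2 * ρ * w.re + ρ ^ 2 := by
      rw [← Complex.normSq_eq_norm_sq, ← Complex.normSq_eq_norm_sq, Complex.normSq_apply,
        Complex.normSq_apply]
      simp; ring
    rw [h2, hw, hwre]
    have h3 : 0 < ‖s‖ ^ 2 := by positivity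
    nlinarith
  have hconj : (starRingEnd ℂ) s = 1 + Lam (-(t * I)) := by
    have : (starRingEnd ℂ) (t * I) = -(t * I) := by simp
    rw [hs, map_add, map_one, ← Lam_conj, this]
  refine ⟨ρ, hρpos, s / ρ - 1, (starRingEnd ℂ) s / ρ - 1, hnorm s rfl rfl,
    hnorm _ (by simp) (by simp), ?_, ?_⟩
  · intro h
    have h1 : s = (starRingEnd ℂ) s := by
      have h2 : s / ρ = (starRingEnd ℂ) s / ρ := by linear_combination h
      field_simp at h2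
      exact h2
    have h2 := congrArg Complex.im h1
    rw [conj_im, hsim] at h2
    linarith
  · have e1 : (ρ : ℂ) * (1 + (s / ρ - 1)) - 1 = Lam (t * I) := by
      rw [hs]; field_simp; ring
    have e2 : (ρ : ℂ) * (1 + ((starRingEnd ℂ) s / ρ - 1)) - 1 = Lam (-(t * I)) := by
      rw [hconj]; field_simp; ring
    have m1 : (t * I : ℂ) ∈ Strip := by
      simp only [Strip, mem_ofPred_eq]
      simpa [abs_of_pos ht0] using htπ
    have m2 : (-(t * I) : ℂ) ∈ Strip := by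
      simp only [Strip, mem_ofPred_eq]
      simpa [abs_of_pos ht0] using htπ
    have hκt : (κ : ℂ) * t = Real.pi := by
      have hκ' : (κ : ℂ) ≠ 0 := by exact_mod_cast hκ0.ne'
      rw [ht]; push_cast; field_simp
    simp only [fn]
    rw [e1, e2, inv_Lam m1, inv_Lam m2]
    have f1 : (κ : ℂ) * (t * I) = Real.pi * I := by rw [← mul_assoc, hκt]
    have f2 : (κ : ℂ) * (-(t * I)) = -(Real.pi * I) := by rw [mul_neg, f1]
    rw [f1, f2, exp_neg, exp_pi_mul_I]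
    norm_num

end Pool.Agent.H51.Becker
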