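import Mathlib.Analysis.Fourier.LpSpace
import Mathlib.MeasureTheory.Function.L2Space

/-!
# Frame wavelets and the band-limited functions `ψ_b`: definitions
-/

open MeasureTheory FourierTransform ComplexConjugate

namespace Pool.Agent.H51.Frame

/-- The function `ψ_{j,k}(x) = 2^{j/2} ψ(2^j x - k)`. -/
noncomputable def waveletFn (ψ : ℝ → ℂ) (j k : ℤ) (x : ℝ) : ℂ :=
  ((2 : ℝ) ^ ((j : ℝ) / 2) : ℝ) * ψ ((2 : ℝ) ^ j * x - k)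

/-- The coefficient `⟨f, ψ_{j,k}⟩ = ∫ f(x) conj (ψ_{j,k}(x)) dx`. -/
noncomputable def waveletCoeff (ψ f : Lp ℂ 2 (volume : Measure ℝ)) (j k : ℤ) : ℂ :=
  ∫ x, f x * conj (waveletFn ψ j k x)

/-- `ψ ∈ L²(ℝ)` is a frame wavelet: the functions `ψ_{j,k}`, `j, k ∈ ℤ`, form a frame for
`L²(ℝ)`. -/
def IsFrameWavelet (ψ : Lp ℂ 2 (volume : Measure ℝ)) : Prop :=
  ∃ A B : ℝ, 0 < A ∧ A ≤ B ∧ ∀ f : Lp ℂ 2 (volume : Measure ℝ),
    Summable (fun p : ℤ × ℤ => ‖waveletCoeff ψ f p.1 p.2‖ ^ 2) ∧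
    A * ‖f‖ ^ 2 ≤ ∑' p : ℤ × ℤ, ‖waveletCoeff ψ f p.1 p.2‖ ^ 2 ∧
    ∑' p : ℤ × ℤ, ‖waveletCoeff ψ f p.1 p.2‖ ^ 2 ≤ B * ‖f‖ ^ 2

/-- The frequency support `(-1, -b) ∪ (b, 1)`. -/
def band (b : ℝ) : Set ℝ := Set.Ioo (-1) (-b) ∪ Set.Ioo b 1

lemma measurableSet_band (b : ℝ) : MeasurableSet (band b) :=
  measurableSet_Ioo.union measurableSet_Ioo

lemma volume_band_ne_top (b : ℝ) : (volume : Measure ℝ) (band b) ≠ ⊤ := by
  refine ne_top_of_le_ne_top ?_ (measure_union_le _ _)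
  simp [Real.volume_Ioo]

/-- The function `ψ_b ∈ L²(ℝ)` whose Fourier transform (convention
`f̂(ξ) = ∫ f(x) e^{-2πixξ} dx`, extended to `L²`) is the indicator function of
`(-1, -b) ∪ (b, 1)`. -/
noncomputable def psiB (b : ℝ) : Lp ℂ 2 (volume : Measure ℝ) :=
  𝓕⁻ (indicatorConstLp 2 (measurableSet_band b) (volume_band_ne_top b) (1 : ℂ))

end Pool.Agent.H51.Frame
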