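import Mathlib

/-!
# The inverse Fourier transform on `L¹ ∩ L²`
-/

open MeasureTheory FourierTransform SchwartzMap Complex ComplexConjugate
open scoped ENNReal ContDiff

namespace Pool.Agent.H51.Frame

/-- Self-adjointness of the inverse Fourier transform on integrable functions. -/
lemma integral_fourierInv_flip {f g : ℝ → ℂ} (hf : Integrable f) (hg : Integrable g) :
    ∫ ξ, 𝓕⁻ f ξ * g ξ = ∫ x, f x * 𝓕⁻ g x := by
  have h := VectorFourier.integral_bilin_fourierIntegral_eq_flip (f := f) (g := g)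
    (ContinuousLinearMap.mul ℂ ℂ) (e := Real.fourierChar) (L := -innerₗ ℝ) (μ := volume)
    (ν := volume) Real.continuous_fourierChar (by
      simp only [LinearMap.neg_apply]
      exact continuous_inner.neg) hf hg
  simp only [VectorFourier.fourierIntegral, LinearMap.neg_apply, LinearMap.flip_apply,
    innerₗ_apply_apply, neg_neg, ContinuousLinearMap.mul_apply'] at h
  simp only [Real.fourierInv_eq]
  rw [h]
  congr 1
  ext x
  congr 2
  ext v
  rw [real_inner_comm]

/-- The `L²` inverse Fourier transform agrees with the integral on `L¹ ∩ L²`. -/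
lemma fourierInv_toLp_ae {u : ℝ → ℂ} (h1 : Integrable u) (h2 : MemLp u 2 volume) :
    (𝓕⁻ (h2.toLp u) : Lp ℂ 2 (volume : Measure ℝ)) =ᵐ[volume] 𝓕⁻ u := by
  set w : Lp ℂ 2 (volume : Measure ℝ) := 𝓕⁻ (h2.toLp u) with hw
  have hcont : Continuous (𝓕⁻ u : ℝ → ℂ) := by
    have := VectorFourier.fourierIntegral_continuous (e := Real.fourierChar) (L := -innerₗ ℝ)
      (μ := (volume : Measure ℝ)) Real.continuous_fourierChar (by
      simp only [LinearMap.neg_apply]
      exact continuous_inner.neg) h1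
    exact this
  have hwloc : LocallyIntegrable w volume :=
    (Lp.memLp w).locallyIntegrable (by norm_num)
  refine ae_eq_of_integral_contDiff_smul_eq hwloc hcont.locallyIntegrable ?_
  intro g hg hgs
  -- the Schwartz function
  let gc : ℝ → ℂ := fun x => (g x : ℂ)
  have hgc : ContDiff ℝ ∞ gc := Complex.ofRealCLM.contDiff.comp hg
  have hgcs : HasCompactSupport gc := hgs.comp_left Complex.ofReal_zero
  let φ : 𝓢(ℝ, ℂ) := hgcs.toSchwartzMap hgc
  have hφ : ∀ x, φ x = g x := fun x => rfl
  have hgi : Integrable gc := hgc.continuous.integrable_of_hasCompactSupport hgcs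
  -- left hand side as an inner product
  have e1 : ∫ x, g x • w x = inner ℂ (φ.toLp 2) w := by
    rw [L2.inner_def]
    apply integral_congr_ae
    filter_upwards [φ.coeFn_toLp 2 volume] with x hx
    rw [hx, hφ, RCLike.inner_apply, conj_ofReal, mul_comm, real_smul]
  have e2 : inner ℂ (φ.toLp 2) w = inner ℂ ((𝓕 φ).toLp 2) (h2.toLp u) := by
    rw [← SchwartzMap.toLp_fourier_eq, hw, ← Lp.inner_fourier_eq]
    congr 1
    exact FourierTransform.fourier_fourierInv_eq _
  have e3 : inner ℂ ((𝓕 φ).toLp 2) (h2.toLp u) = ∫ ξ, conj (𝓕 φ ξ) * u ξ := by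
    rw [L2.inner_def]
    apply integral_congr_ae
    filter_upwards [(𝓕 φ).coeFn_toLp 2 volume, h2.coeFn_toLp] with x hx hx'
    rw [hx, hx', RCLike.inner_apply, mul_comm]
  have e4 : ∀ ξ, conj (𝓕 φ ξ) = 𝓕⁻ gc ξ := by
    intro ξ
    rw [SchwartzMap.fourier_coe, Real.fourier_eq, Real.fourierInv_eq, ← integral_conj]
    congr 1
    ext v
    rw [hφ, Circle.smul_def, Circle.smul_def, smul_eq_mul, smul_eq_mul, map_mul, conj_ofReal]
    congr 1
    rw [← Circle.coe_inv_eq_conj, AddChar.map_neg_eq_inv, inv_inv]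
  rw [e1, e2, e3]
  simp_rw [e4]
  rw [integral_fourierInv_flip hgi h1]
  congr 1

end Pool.Agent.H51.Frame
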