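import Mathlib
import Pool.Agent.H51.FrameDefs
import Pool.Agent.H51.FrameFourier

/-!
# Wavelet coefficients of `ψ_b` on the Fourier side
-/

open MeasureTheory FourierTransform Complex ComplexConjugate Set
open scoped ENNReal

namespace Pool.Agent.H51.Frame

/-- The indicator function of the band. -/
noncomputable def chi (b : ℝ) : ℝ → ℂ := (band b).indicator fun _ => (1 : ℂ)

lemma integrable_chi (b : ℝ) : Integrable (chi b) :=
  (integrable_indicator_iff (measurableSet_band b)).2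
    (integrableOn_const (volume_band_ne_top b))

lemma measurable_chi (b : ℝ) : Measurable (chi b) :=
  measurable_const.indicator (measurableSet_band b)

lemma norm_chi_le (b x : ℝ) : ‖chi b x‖ ≤ 1 := by
  unfold chi
  by_cases h : x ∈ band b
  · rw [indicator_of_mem h]; simp
  · rw [indicator_of_notMem h]; simp

/-- The Fourier transform of `ψ_{j,k}`. -/
noncomputable def chiJK (b : ℝ) (j k : ℤ) (η : ℝ) : ℂ :=
  ((2 : ℝ) ^ (-(j : ℝ) / 2) : ℝ) * chi b (((2 : ℝ) ^ j)⁻¹ * η) *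
    Real.fourierChar (-(((2 : ℝ) ^ j)⁻¹ * η * k))

lemma measurable_chiJK (b : ℝ) (j k : ℤ) : Measurable (chiJK b j k) := by
  unfold chiJK
  have h1 : Measurable fun η : ℝ => chi b (((2 : ℝ) ^ j)⁻¹ * η) :=
    (measurable_chi b).comp (measurable_const_mul _)
  have h2 : Measurable fun η : ℝ => ((Real.fourierChar (-(((2 : ℝ) ^ j)⁻¹ * η * k)) : Circle) : ℂ) := by
    have : Continuous fun η : ℝ => ((Real.fourierChar (-(((2 : ℝ) ^ j)⁻¹ * η * k)) : Circle) : ℂ) := by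
      have h3 := Real.continuous_fourierChar
      fun_prop
    exact this.measurable
  exact (h1.const_mul _).mul h2

lemma norm_chiJK (b : ℝ) (j k : ℤ) (η : ℝ) :
    ‖chiJK b j k η‖ = (2 : ℝ) ^ (-(j : ℝ) / 2) * ‖chi b (((2 : ℝ) ^ j)⁻¹ * η)‖ := by
  unfold chiJK
  rw [norm_mul, norm_mul, Circle.norm_coe, mul_one, norm_real, Real.norm_eq_abs,
    abs_of_pos (by positivity)]

lemma integrable_chiJK (b : ℝ) (j k : ℤ) : Integrable (chiJK b j k) := by
  have h2 : (0 : ℝ) < (2 : ℝ) ^ j := by positivity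
  have h1 : Integrable fun η : ℝ => chi b (((2 : ℝ) ^ j)⁻¹ * η) :=
    (integrable_chi b).comp_mul_left' (inv_ne_zero h2.ne')
  refine (h1.norm.const_mul ((2 : ℝ) ^ (-(j : ℝ) / 2))).mono'
    (measurable_chiJK b j k).aestronglyMeasurable ?_
  filter_upwards with η
  rw [norm_chiJK]

lemma memLp_chiJK (b : ℝ) (j k : ℤ) : MemLp (chiJK b j k) 2 volume := by
  refine (memLp_two_iff_integrable_sq_norm (measurable_chiJK b j k).aestronglyMeasurable).2 ?_
  have h1 := (integrable_chiJK b j k).norm.const_mul ((2 : ℝ) ^ (-(j : ℝ) / 2))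
  refine h1.mono' ((measurable_chiJK b j k).norm.pow_const 2).aestronglyMeasurable ?_
  filter_upwards with η
  rw [Real.norm_eq_abs, abs_of_nonneg (by positivity), sq]
  gcongr
  rw [norm_chiJK]
  calc (2 : ℝ) ^ (-(j : ℝ) / 2) * ‖chi b (((2 : ℝ) ^ j)⁻¹ * η)‖
      ≤ (2 : ℝ) ^ (-(j : ℝ) / 2) * 1 := by gcongr; exact norm_chi_le _ _
    _ = _ := mul_one _

lemma psiB_ae (b : ℝ) : (psiB b : ℝ → ℂ) =ᵐ[volume] 𝓕⁻ (chi b) := by
  have h2 : MemLp (chi b) 2 volume :=
    memLp_indicator_const 2 (measurableSet_band b) (1 : ℂ) (Or.inr (volume_band_ne_top b))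
  have h := fourierInv_toLp_ae (integrable_chi b) h2
  exact h

/-- Change of variables. -/
lemma fourierInv_chiJK (b : ℝ) (j k : ℤ) (x : ℝ) :
    𝓕⁻ (chiJK b j k) x = ((2 : ℝ) ^ ((j : ℝ) / 2) : ℝ) * 𝓕⁻ (chi b) ((2 : ℝ) ^ j * x - k) := by
  have h2 : (0 : ℝ) < (2 : ℝ) ^ j := by positivity
  rw [Real.fourierInv_eq, Real.fourierInv_eq]
  -- rewrite the right integral through `ξ = 2^{-j} η`
  have hcv := Measure.integral_comp_mul_left
    (fun v : ℝ => Real.fourierChar (inner ℝ v ((2 : ℝ) ^ j * x - k)) • chi b v) (((2 : ℝ) ^ j)⁻¹)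
  rw [inv_inv, abs_of_pos h2] at hcv
  have hpow : (2 : ℝ) ^ ((j : ℝ) / 2) = (2 : ℝ) ^ (-(j : ℝ) / 2) * (2 : ℝ) ^ j := by
    rw [← Real.rpow_intCast, ← Real.rpow_add (by norm_num)]
    congr 1; ring
  rw [hpow]
  push_cast
  rw [mul_assoc]
  have : ((2 : ℂ) ^ j) * ∫ v : ℝ, Real.fourierChar (inner ℝ v ((2 : ℝ) ^ j * x - k)) • chi b v =
      ∫ y : ℝ, Real.fourierChar (inner ℝ ((((2 : ℝ) ^ j)⁻¹) * y) ((2 : ℝ) ^ j * x - k)) •
        chi b ((((2 : ℝ) ^ j)⁻¹) * y) := by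
    rw [hcv, real_smul]; push_cast; rfl
  rw [this, ← integral_const_mul]
  congr 1
  ext y
  unfold chiJK
  simp only [Circle.smul_def, smul_eq_mul]
  have hchar : (Real.fourierChar (inner ℝ y x) : ℂ) *
      (Real.fourierChar (-(((2 : ℝ) ^ j)⁻¹ * y * k)) : ℂ) =
      (Real.fourierChar (inner ℝ ((((2 : ℝ) ^ j)⁻¹) * y) ((2 : ℝ) ^ j * x - k)) : ℂ) := by
    rw [← Circle.coe_mul, ← AddChar.map_add_eq_mul]
    congr 2
    simp only [RCLike.inner_apply, conj_trivial]
    field_simp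
    ring
  rw [← hchar]
  push_cast
  ring

/-- `ψ_{j,k}` is the inverse Fourier transform of `chiJK`. -/
lemma waveletFn_ae (b : ℝ) (j k : ℤ) :
    waveletFn (psiB b) j k =ᵐ[volume]
      (𝓕⁻ ((memLp_chiJK b j k).toLp (chiJK b j k)) : Lp ℂ 2 (volume : Measure ℝ)) := by
  have h2 : (0 : ℝ) < (2 : ℝ) ^ j := by positivity
  have h1 := fourierInv_toLp_ae (integrable_chiJK b j k) (memLp_chiJK b j k)
  have h3 : ∀ᵐ x : ℝ, (psiB b : ℝ → ℂ) ((2 : ℝ) ^ j * x - k) =
      𝓕⁻ (chi b) ((2 : ℝ) ^ j * x - k) := by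
    have hq1 : Measure.QuasiMeasurePreserving (fun x : ℝ => (2 : ℝ) ^ j * x) volume volume :=
      ⟨measurable_const_mul _, by
        rw [Real.map_volume_mul_left h2.ne']
        exact Measure.smul_absolutelyContinuous⟩
    have hq2 : Measure.QuasiMeasurePreserving (fun x : ℝ => x - (k : ℝ)) volume volume :=
      (measurePreserving_sub_right volume (k : ℝ)).quasiMeasurePreserving
    exact (hq2.comp hq1).ae (psiB_ae b)
  filter_upwards [h1, h3] with x hx hx'
  rw [hx, fourierInv_chiJK, waveletFn, hx']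

/-- The coefficients on the Fourier side. -/
lemma waveletCoeff_eq (b : ℝ) (f : Lp ℂ 2 (volume : Measure ℝ)) (j k : ℤ) :
    waveletCoeff (psiB b) f j k =
      ∫ η, conj (chiJK b j k η) * (𝓕 f : Lp ℂ 2 (volume : Measure ℝ)) η := by
  have e1 : waveletCoeff (psiB b) f j k =
      inner ℂ (𝓕⁻ ((memLp_chiJK b j k).toLp (chiJK b j k)) : Lp ℂ 2 (volume : Measure ℝ)) f := by
    rw [L2.inner_def, waveletCoeff]
    apply integral_congr_ae
    filter_upwards [waveletFn_ae b j k] with x hx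
    rw [hx, RCLike.inner_apply]
  have e2 : inner ℂ (𝓕⁻ ((memLp_chiJK b j k).toLp (chiJK b j k)) : Lp ℂ 2 (volume : Measure ℝ)) f
      = inner ℂ ((memLp_chiJK b j k).toLp (chiJK b j k)) (𝓕 f : Lp ℂ 2 (volume : Measure ℝ)) := by
    rw [← Lp.inner_fourier_eq]
    congr 1
    exact FourierTransform.fourier_fourierInv_eq _
  rw [e1, e2, L2.inner_def]
  apply integral_congr_ae
  filter_upwards [(memLp_chiJK b j k).coeFn_toLp] with x hx
  rw [hx, RCLike.inner_apply, mul_comm]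

end Pool.Agent.H51.Frame
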