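import Mathlib
import Pool.Agent.H51.FrameDefs
import Pool.Agent.H51.FrameFourier
import Pool.Agent.H51.FrameCoeff

/-!
# Parseval on the interval `(0, 2^j)`
-/

open MeasureTheory FourierTransform Complex ComplexConjugate Set
open scoped ENNReal

namespace Pool.Agent.H51.Frame

/-- The folded function on `(0, T)`. -/
noncomputable def fold (b : ℝ) (F : ℝ → ℂ) (T : ℝ) (x : ℝ) : ℂ :=
  (if T * b ≤ x then F x else 0) + (if x ≤ T * (1 - b) then F (x - T) else 0)

lemma measurable_fold (b : ℝ) {F : ℝ → ℂ} (hF : Measurable F) (T : ℝ) :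
    Measurable (fold b F T) := by
  unfold fold
  refine Measurable.add ?_ ?_
  · exact Measurable.ite measurableSet_Ici hF measurable_const
  · exact Measurable.ite measurableSet_Iic (hF.comp (measurable_sub_const T)) measurable_const

lemma memLp_fold (b : ℝ) {F : ℝ → ℂ} (hL : MemLp F 2 volume) (T : ℝ) :
    MemLp (fold b F T) 2 volume := by
  unfold fold
  refine MemLp.add ?_ ?_
  · have : (fun x => if T * b ≤ x then F x else 0) = (Ici (T * b)).indicator F := by
      ext x; simp [indicator_apply]
    rw [this]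
    exact hL.indicator measurableSet_Ici
  · have : (fun x => if x ≤ T * (1 - b) then F (x - T) else 0) =
        (Iic (T * (1 - b))).indicator (fun x => F (x - T)) := by
      ext x; simp [indicator_apply]
    rw [this]
    refine MemLp.indicator measurableSet_Iic ?_
    exact hL.comp_measurePreserving (measurePreserving_sub_right volume T)

/-- The coefficient as an integral of the folded function. -/
lemma coeff_fold {b : ℝ} (hb0 : 0 < b) (hb1 : b < 1 / 2) {F : ℝ → ℂ}
    (hL : MemLp F 2 volume) (j k : ℤ) :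
    ∫ η, conj (chiJK b j k η) * F η =
      ((2 : ℝ) ^ (-(j : ℝ) / 2) : ℝ) *
        ∫ x in (0 : ℝ)..((2 : ℝ) ^ j), Real.fourierChar (((2 : ℝ) ^ j)⁻¹ * x * k) •
          fold b F ((2 : ℝ) ^ j) x := by
  set T : ℝ := (2 : ℝ) ^ j with hT
  have hT0 : 0 < T := by positivity
  -- abbreviations
  let e : ℝ → ℂ := fun x => (Real.fourierChar (T⁻¹ * x * k) : ℂ)
  have he : Continuous e := by
    have h3 := Real.continuous_fourierChar
    simp only [e]
    fun_prop
  have hen : ∀ x, ‖e x‖ = 1 := fun x => Circle.norm_coe _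
  have heT : ∀ x, e (x - T) = e x := by
    intro x
    simp only [e]
    have h1 : T⁻¹ * (x - T) * k = T⁻¹ * x * k + (-(k : ℝ)) := by field_simp; ring
    rw [h1, AddChar.map_add_eq_mul, Circle.coe_mul]
    have h2 : (Real.fourierChar (-(k : ℝ)) : ℂ) = 1 := by
      rw [Real.fourierChar_apply]
      have : (2 * Real.pi * (-(k : ℝ)) : ℝ) * I = ((-k : ℤ) : ℂ) * (2 * Real.pi * I) := by
        push_cast; ring
      rw [this, Complex.exp_int_mul_two_pi_mul_I]
    rw [h2, mul_one]
  have hFloc : LocallyIntegrable F volume := hL.locallyIntegrable (by norm_num)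
  have hint : ∀ s : Set ℝ, Bornology.IsBounded s → IntegrableOn (fun η => e η * F η) s := by
    intro s hs
    obtain ⟨r, hr⟩ := hs.subset_closedBall 0
    have h1 : IntegrableOn F (Metric.closedBall 0 r) :=
      hFloc.integrableOn_isCompact (isCompact_closedBall _ _)
    have h2 : IntegrableOn (fun η => e η * F η) (Metric.closedBall 0 r) :=
      h1.bdd_mul he.aestronglyMeasurable (c := 1) (by filter_upwards with x; rw [hen])
    exact h2.mono_set hr
  -- left-hand side
  have lhs : ∫ η, conj (chiJK b j k η) * F η =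
      ((2 : ℝ) ^ (-(j : ℝ) / 2) : ℝ) * ∫ η in (Ioo (-T) (-(T * b)) ∪ Ioo (T * b) T), e η * F η := by
    rw [← integral_const_mul, ← integral_indicator
      (measurableSet_Ioo.union measurableSet_Ioo)]
    congr 1
    ext η
    have hmem : (T⁻¹ * η ∈ band b) ↔ η ∈ Ioo (-T) (-(T * b)) ∪ Ioo (T * b) T := by
      unfold band
      simp only [mem_union, mem_Ioo]
      have e1 : T⁻¹ * η = η / T := by rw [div_eq_inv_mul]
      rw [e1, lt_div_iff₀ hT0, div_lt_iff₀ hT0, lt_div_iff₀ hT0, div_lt_iff₀ hT0]
      constructor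
      · rintro (⟨h1, h2⟩ | ⟨h1, h2⟩)
        · left; constructor <;> nlinarith
        · right; constructor <;> nlinarith
      · rintro (⟨h1, h2⟩ | ⟨h1, h2⟩)
        · left; constructor <;> nlinarith
        · right; constructor <;> nlinarith
    unfold chiJK chi
    rw [← hT]
    by_cases h : T⁻¹ * η ∈ band b
    · rw [indicator_of_mem h, indicator_of_mem (hmem.1 h), mul_one, map_mul, conj_ofReal,
        AddChar.map_neg_eq_inv, Circle.coe_inv_eq_conj, conj_conj]
      simp only [e]
      ring
    · rw [indicator_of_notMem h, indicator_of_notMem (fun h' => h (hmem.2 h'))]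
      simp
  rw [lhs]
  congr 1
  have hTb : T * b < T * (1 - b) := by nlinarith
  have hTb0 : 0 < T * b := by positivity
  have hTb1 : T * (1 - b) < T := by nlinarith
  rw [setIntegral_union (by
      rw [Set.disjoint_left]
      rintro x ⟨_, h1⟩ ⟨h2, _⟩
      linarith) measurableSet_Ioo (hint _ (Metric.isBounded_Ioo _ _))
      (hint _ (Metric.isBounded_Ioo _ _))]
  rw [← integral_Ioc_eq_integral_Ioo, ← integral_Ioc_eq_integral_Ioo,
    ← intervalIntegral.integral_of_le (by nlinarith), ← intervalIntegral.integral_of_le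
      (by nlinarith)]
  have hii : ∀ a c : ℝ, IntervalIntegrable (fun η => e η * F η) volume a c := by
    intro a c
    exact ⟨hint _ (Metric.isBounded_Ioc _ _), hint _ (Metric.isBounded_Ioc _ _)⟩
  -- shift in the first integral
  have shift : ∫ x in (-T)..(-(T * b)), e x * F x = ∫ x in (0 : ℝ)..(T * (1 - b)), e x * F (x - T) := by
    have h1 := intervalIntegral.integral_comp_sub_right (fun x => e x * F x) T
      (a := 0) (b := T * (1 - b))
    have e1 : (0 : ℝ) - T = -T := by ring
    have e2 : T * (1 - b) - T = -(T * b) := by ring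
    rw [e1, e2] at h1
    rw [← h1]
    congr 1
    ext x
    rw [heT]
  rw [shift]
  -- right-hand side
  have hL' : MemLp (fun x => F (x - T)) 2 volume :=
    hL.comp_measurePreserving (measurePreserving_sub_right volume T)
  have hFloc' : LocallyIntegrable (fun x => F (x - T)) volume := hL'.locallyIntegrable (by norm_num)
  have hint' : ∀ s : Set ℝ, Bornology.IsBounded s →
      IntegrableOn (fun η => e η * F (η - T)) s := by
    intro s hs
    obtain ⟨r, hr⟩ := hs.subset_closedBall 0
    have h1 : IntegrableOn (fun x => F (x - T)) (Metric.closedBall 0 r) :=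
      hFloc'.integrableOn_isCompact (isCompact_closedBall _ _)
    have h2 : IntegrableOn (fun η => e η * F (η - T)) (Metric.closedBall 0 r) :=
      h1.bdd_mul he.aestronglyMeasurable (c := 1) (by filter_upwards with x; rw [hen])
    exact h2.mono_set hr
  have rhs : ∫ x in (0 : ℝ)..T, Real.fourierChar (T⁻¹ * x * k) • fold b F T x =
      (∫ x in (0 : ℝ)..T, (Ici (T * b)).indicator (fun x => e x * F x) x) +
      ∫ x in (0 : ℝ)..T, (Iic (T * (1 - b))).indicator (fun x => e x * F (x - T)) x := by
    rw [← intervalIntegral.integral_add]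
    · congr 1
      ext x
      simp only [fold, Circle.smul_def, smul_eq_mul, indicator_apply, mem_Ici, mem_Iic, e]
      split_ifs <;> ring
    · rw [intervalIntegrable_iff_integrableOn_Ioc_of_le hT0.le]
      exact (hint _ (Metric.isBounded_Ioc _ _)).indicator measurableSet_Ici
    · rw [intervalIntegrable_iff_integrableOn_Ioc_of_le hT0.le]
      exact (hint' _ (Metric.isBounded_Ioc _ _)).indicator measurableSet_Iic
  rw [rhs]
  have r1 : ∫ x in (0 : ℝ)..T, (Ici (T * b)).indicator (fun x => e x * F x) x =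
      ∫ x in (T * b)..T, e x * F x := by
    rw [intervalIntegral.integral_of_le hT0.le, intervalIntegral.integral_of_le (by nlinarith),
      integral_indicator measurableSet_Ici, Measure.restrict_restrict measurableSet_Ici]
    have : ∫ x in Ici (T * b) ∩ Ioc 0 T, e x * F x = ∫ x in Icc (T * b) T, e x * F x := by
      congr 2
      ext x
      simp only [mem_inter_iff, mem_Ici, mem_Ioc, mem_Icc]
      constructor
      · rintro ⟨h1, h2, h3⟩; exact ⟨h1, h3⟩
      · rintro ⟨h1, h2⟩; exact ⟨h1, by linarith, h2⟩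
    rw [this, integral_Icc_eq_integral_Ioc]
  have r2 : ∫ x in (0 : ℝ)..T, (Iic (T * (1 - b))).indicator (fun x => e x * F (x - T)) x =
      ∫ x in (0 : ℝ)..(T * (1 - b)), e x * F (x - T) := by
    rw [intervalIntegral.integral_of_le hT0.le, intervalIntegral.integral_of_le (by nlinarith),
      integral_indicator measurableSet_Iic, Measure.restrict_restrict measurableSet_Iic]
    congr 2
    ext x
    simp only [mem_inter_iff, mem_Iic, mem_Ioc]
    constructor
    · rintro ⟨h1, h2, h3⟩; exact ⟨h2, h1⟩
    · rintro ⟨h1, h2⟩; exact ⟨h2, h1, by linarith⟩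
  rw [r1, r2, add_comm]

/-- Parseval for fixed `j`. -/
lemma hasSum_coeff {b : ℝ} (hb0 : 0 < b) (hb1 : b < 1 / 2) {F : ℝ → ℂ}
    (hL : MemLp F 2 volume) (j : ℤ) :
    HasSum (fun k : ℤ => ‖∫ η, conj (chiJK b j k η) * F η‖ ^ 2)
      (∫ x in (0 : ℝ)..((2 : ℝ) ^ j), ‖fold b F ((2 : ℝ) ^ j) x‖ ^ 2) := by
  have hT0 : (0 : ℝ) < (2 : ℝ) ^ j := by positivity
  set T : ℝ := (2 : ℝ) ^ j with hT
  have hG : MemLp (fold b F T) 2 (volume.restrict (Ioc 0 T)) :=
    (memLp_fold b hL T).mono_measure Measure.restrict_le_self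
  have h1 := hasSum_sq_fourierCoeffOn hT0 hG
  have h2 := (h1.mul_left T)
  rw [sub_zero, smul_eq_mul, mul_inv_cancel_left₀ hT0.ne'] at h2
  have h3 := (Equiv.neg ℤ).hasSum_iff.2 h2
  have hfun : (fun k : ℤ => ‖∫ η, conj (chiJK b j k η) * F η‖ ^ 2) =
      (fun i => T * ‖fourierCoeffOn hT0 (fold b F T) i‖ ^ 2) ∘ (Equiv.neg ℤ) := by
    ext k
    rw [coeff_fold hb0 hb1 hL j k, ← hT]
    simp only [Function.comp_apply, Equiv.neg_apply]
    rw [fourierCoeffOn_eq_integral]
    have hpow : ((2 : ℝ) ^ (-(j : ℝ) / 2)) ^ 2 = T⁻¹ := by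
      rw [← Real.rpow_natCast, ← Real.rpow_mul (by norm_num), hT, ← Real.rpow_intCast,
        ← Real.rpow_neg (by norm_num)]
      congr 1
      push_cast
      ring
    have hint : ∫ x in (0 : ℝ)..T, fourier (-(-k)) (x : AddCircle (T - 0)) • fold b F T x =
        ∫ x in (0 : ℝ)..T, Real.fourierChar (T⁻¹ * x * k) • fold b F T x := by
      congr 1
      ext x
      rw [Circle.smul_def]
      congr 1
      rw [fourier_coe_apply, Real.fourierChar_apply]
      congr 1
      push_cast
      field_simp
      ring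
    rw [hint, norm_mul, norm_smul, mul_pow, mul_pow, norm_real, Real.norm_eq_abs,
      Real.norm_eq_abs, sq_abs, sq_abs, hpow, sub_zero]
    generalize (∫ x in (0 : ℝ)..T, Real.fourierChar (T⁻¹ * x * k) • fold b F T x) = v
    field_simp
  rw [hfun]
  exact h3

end Pool.Agent.H51.Frame
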