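import Mathlib
import Pool.Agent.H51.FrameParseval

/-!
# The parent operator on dyadic blocks
-/

open MeasureTheory Set
open scoped ENNReal

namespace Pool.Agent.H51.Frame

/-- `lev s` is the integer `k` with `2^(k-1) ≤ s < 2^k`. -/
noncomputable def lev (s : ℝ) : ℤ := ⌊Real.logb 2 s⌋ + 1

lemma measurable_lev : Measurable lev := by
  unfold lev Real.logb
  exact (Int.measurable_floor.comp (Real.measurable_log.div_const _)).add_const 1

lemma lev_eq {k : ℤ} {s : ℝ} (h1 : (2 : ℝ) ^ (k - 1) ≤ s) (h2 : s < (2 : ℝ) ^ k) : lev s = k := by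
  have hs : 0 < s := lt_of_lt_of_le (by positivity) h1
  unfold lev
  have : ⌊Real.logb 2 s⌋ = k - 1 := by
    rw [Int.floor_eq_iff]
    constructor
    · rw [Real.le_logb_iff_rpow_le (by norm_num) hs, Real.rpow_intCast]
      exact h1
    · rw [Real.logb_lt_iff_lt_rpow (by norm_num) hs]
      have : ((k - 1 : ℤ) : ℝ) + 1 = ((k : ℤ) : ℝ) := by push_cast; ring
      rw [this, Real.rpow_intCast]
      exact h2
  omega

lemma lev_spec {s : ℝ} (hs : 0 < s) : (2 : ℝ) ^ (lev s - 1) ≤ s ∧ s < (2 : ℝ) ^ (lev s) := by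
  unfold lev
  have h1 : ((⌊Real.logb 2 s⌋ : ℤ) : ℝ) ≤ Real.logb 2 s := Int.floor_le _
  have h2 : Real.logb 2 s < (⌊Real.logb 2 s⌋ : ℤ) + 1 := Int.lt_floor_add_one _
  constructor
  · rw [Real.le_logb_iff_rpow_le (by norm_num) hs, Real.rpow_intCast] at h1
    rw [add_sub_cancel_right]
    exact h1
  · rw [Real.logb_lt_iff_lt_rpow (by norm_num) hs] at h2
    rw [← Real.rpow_intCast]
    push_cast
    exact h2

/-- Dyadic decomposition of an integral over `(0, ∞)`. -/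
lemma lintegral_dyadic (h : ℝ → ℝ≥0∞) :
    ∫⁻ x in Ioi 0, h x = ∑' k : ℤ, ∫⁻ x in Ico ((2 : ℝ) ^ (k - 1)) ((2 : ℝ) ^ k), h x := by
  have hU : Ioi (0 : ℝ) = ⋃ k : ℤ, Ico ((2 : ℝ) ^ (k - 1)) ((2 : ℝ) ^ k) := by
    ext x
    simp only [mem_Ioi, mem_iUnion, mem_Ico]
    constructor
    · intro hx
      exact ⟨lev x, lev_spec hx⟩
    · rintro ⟨k, h1, _⟩
      exact lt_of_lt_of_le (by positivity) h1
  rw [hU]
  refine lintegral_iUnion (fun _ => measurableSet_Ico) ?_ h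
  intro i j hij
  simp only [Function.onFun]
  rw [Set.disjoint_left]
  rintro x ⟨h1, h2⟩ ⟨h3, h4⟩
  exact hij ((lev_eq h1 h2).symm.trans (lev_eq h3 h4))

/-- The parent operator. -/
noncomputable def Q (b : ℝ) (w : ℝ → ℂ) (s : ℝ) : ℂ :=
  if s ≤ (2 : ℝ) ^ (lev s) * (1 - b) then w ((2 : ℝ) ^ (lev s) - s) else 0

lemma measurable_two_zpow_lev : Measurable fun s : ℝ => (2 : ℝ) ^ (lev s) :=
  (measurable_of_countable fun n : ℤ => (2 : ℝ) ^ n).comp measurable_lev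

lemma measurable_Q (b : ℝ) {w : ℝ → ℂ} (hw : Measurable w) : Measurable (Q b w) := by
  unfold Q
  refine Measurable.ite ?_ ?_ measurable_const
  · exact measurableSet_le measurable_id (measurable_two_zpow_lev.mul_const _)
  · exact hw.comp (measurable_two_zpow_lev.sub measurable_id)

lemma Q_sub (b : ℝ) (w w' : ℝ → ℂ) (s : ℝ) :
    Q b (fun y => w y - w' y) s = Q b w s - Q b w' s := by
  unfold Q
  split_ifs <;> simp

/-- Basic change of variables for `Q`. -/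
lemma lintegral_Q {b : ℝ} {w : ℝ → ℂ} (hw : Measurable w)
    {W : ℝ → ℝ≥0∞} (hW : Measurable W) :
    ∫⁻ s in Ioi 0, ‖Q b w s‖ₑ ^ 2 * W s = ∫⁻ y in Ioi 0, ‖w y‖ₑ ^ 2 *
      ∑' k : ℤ, (if (2 : ℝ) ^ k * b ≤ y ∧ y ≤ (2 : ℝ) ^ (k - 1) then W ((2 : ℝ) ^ k - y)
        else 0) := by
  rw [lintegral_dyadic]
  have hblock : ∀ k : ℤ, ∫⁻ s in Ico ((2 : ℝ) ^ (k - 1)) ((2 : ℝ) ^ k), ‖Q b w s‖ₑ ^ 2 * W s =
      ∫⁻ y in Ioi 0, ‖w y‖ₑ ^ 2 *
        (if (2 : ℝ) ^ k * b ≤ y ∧ y ≤ (2 : ℝ) ^ (k - 1) then W ((2 : ℝ) ^ k - y) else 0) := by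
    intro k
    have hk : (2 : ℝ) ^ k = 2 * (2 : ℝ) ^ (k - 1) := by
      rw [zpow_sub_one₀ (by norm_num)]; field_simp
    have hkpos : (0 : ℝ) < (2 : ℝ) ^ (k - 1) := by positivity
    rw [← lintegral_indicator measurableSet_Ico, ← lintegral_indicator measurableSet_Ioi,
      ← lintegral_sub_left_eq_self _ ((2 : ℝ) ^ k)]
    apply lintegral_congr
    intro y
    by_cases hy : 0 < y ∧ y ≤ (2 : ℝ) ^ (k - 1)
    · have hm1 : (2 : ℝ) ^ k - y ∈ Ico ((2 : ℝ) ^ (k - 1)) ((2 : ℝ) ^ k) := by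
        constructor <;> linarith [hy.1, hy.2]
      have hm2 : y ∈ Ioi (0 : ℝ) := hy.1
      rw [indicator_of_mem hm1, indicator_of_mem hm2]
      unfold Q
      rw [lev_eq hm1.1 hm1.2]
      by_cases hb : (2 : ℝ) ^ k * b ≤ y
      · rw [if_pos (by linarith), if_pos ⟨hb, hy.2⟩, sub_sub_cancel]
      · rw [if_neg (by intro h; apply hb; linarith), if_neg (by intro h; exact hb h.1)]
        simp
    · have hm1 : (2 : ℝ) ^ k - y ∉ Ico ((2 : ℝ) ^ (k - 1)) ((2 : ℝ) ^ k) := by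
        rintro ⟨h1, h2⟩
        apply hy
        constructor <;> linarith
      rw [indicator_of_notMem hm1]
      by_cases hy0 : 0 < y
      · rw [indicator_of_mem (show y ∈ Ioi (0 : ℝ) from hy0), if_neg, mul_zero]
        rintro ⟨_, h⟩
        exact hy ⟨hy0, h⟩
      · rw [indicator_of_notMem (show y ∉ Ioi (0 : ℝ) from hy0)]
  simp_rw [hblock]
  rw [← lintegral_tsum]
  · congr 1
    ext y
    rw [ENNReal.tsum_mul_left]
  · intro k
    have h1 : Measurable fun y : ℝ => (if (2 : ℝ) ^ k * b ≤ y ∧ y ≤ (2 : ℝ) ^ (k - 1) then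
        W ((2 : ℝ) ^ k - y) else 0) := by
      refine Measurable.ite ?_ (hW.comp (measurable_const.sub measurable_id)) measurable_const
      exact (measurableSet_le measurable_const measurable_id).inter
        (measurableSet_le measurable_id measurable_const)
    exact ((hw.enorm.pow_const 2).mul h1).aemeasurable

/-- The number of children. -/
noncomputable def cnt (b y : ℝ) : ℝ≥0∞ :=
  ∑' k : ℤ, (if (2 : ℝ) ^ k * b ≤ y ∧ y ≤ (2 : ℝ) ^ (k - 1) then (1 : ℝ≥0∞) else 0)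

lemma measurable_cnt (b : ℝ) : Measurable (cnt b) := by
  unfold cnt
  refine Measurable.tsum fun k => ?_
  refine Measurable.ite ?_ measurable_const measurable_const
  exact (measurableSet_le measurable_const measurable_id).inter
    (measurableSet_le measurable_id measurable_const)

/-- The first child index. -/
lemma exists_first {b y : ℝ} (hb2 : b ≤ 1 / 6) (hy : 0 < y) :
    ∃ k : ℤ, (2 : ℝ) ^ (k - 2) < y ∧ y ≤ (2 : ℝ) ^ (k - 1) ∧ (2 : ℝ) ^ k * b ≤ y := by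
  set m := Int.clog 2 y with hm
  have h1 : y ≤ (2 : ℝ) ^ m := by
    have := Int.self_le_zpow_clog (b := 2) (by norm_num) y
    exact_mod_cast this
  have h2 : (2 : ℝ) ^ (m - 1) < y := by
    have := Int.zpow_pred_clog_lt_self (b := 2) (by norm_num) hy
    exact_mod_cast this
  refine ⟨m + 1, ?_, ?_, ?_⟩
  · have : m + 1 - 2 = m - 1 := by ring
    rw [this]; exact h2
  · rw [add_sub_cancel_right]; exact h1
  · have h3 : (2 : ℝ) ^ (m + 1) = 4 * (2 : ℝ) ^ (m - 1) := by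
      rw [zpow_add₀ (by norm_num), zpow_sub₀ (by norm_num)]; norm_num; ring
    have h4 : (0 : ℝ) < (2 : ℝ) ^ (m - 1) := by positivity
    rw [h3]
    nlinarith

lemma cnt_le_two {b y : ℝ} (hb1 : 1 / 8 < b) (hb2 : b ≤ 1 / 6) (hy : 0 < y) : cnt b y ≤ 2 := by
  obtain ⟨k₀, h1, h2, h3⟩ := exists_first hb2 hy
  unfold cnt
  rw [tsum_eq_sum (s := {k₀, k₀ + 1})]
  · rw [Finset.sum_pair (by omega)]
    calc _ ≤ (1 : ℝ≥0∞) + 1 := by
          gcongr <;> split_ifs <;> simp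
      _ = 2 := one_add_one_eq_two
  · intro k hk
    rw [if_neg]
    rintro ⟨h4, h5⟩
    apply hk
    have h6 : k₀ - 2 < k - 1 := by
      have : (2 : ℝ) ^ (k₀ - 2) < (2 : ℝ) ^ (k - 1) := lt_of_lt_of_le h1 h5
      exact (zpow_lt_zpow_iff_right₀ (by norm_num)).1 this
    have h7 : k < k₀ + 2 := by
      have h8 : (2 : ℝ) ^ k * (1 / 8) < (2 : ℝ) ^ (k₀ - 1) := by
        have h9 : (2 : ℝ) ^ k * (1 / 8) < (2 : ℝ) ^ k * b := by
          have : (0 : ℝ) < (2 : ℝ) ^ k := by positivity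
          gcongr
        linarith
      have h10 : (2 : ℝ) ^ k < (2 : ℝ) ^ (k₀ + 2) := by
        have : (2 : ℝ) ^ (k₀ + 2) = 8 * (2 : ℝ) ^ (k₀ - 1) := by
          rw [zpow_add₀ (by norm_num), zpow_sub₀ (by norm_num)]; norm_num; ring
        rw [this]; linarith
      exact (zpow_lt_zpow_iff_right₀ (by norm_num)).1 h10
    simp only [Finset.mem_insert, Finset.mem_singleton]
    omega

lemma one_le_cnt {b y : ℝ} (hb2 : b ≤ 1 / 6) (hy : 0 < y) : 1 ≤ cnt b y := by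
  obtain ⟨k₀, h1, h2, h3⟩ := exists_first hb2 hy
  unfold cnt
  calc (1 : ℝ≥0∞) = (if (2 : ℝ) ^ k₀ * b ≤ y ∧ y ≤ (2 : ℝ) ^ (k₀ - 1) then (1 : ℝ≥0∞) else 0) := by
        rw [if_pos ⟨h3, h2⟩]
    _ ≤ _ := ENNReal.le_tsum k₀

/-- Weighted count: grandchildren. -/
lemma two_le_grand {b y : ℝ} (hb0 : 0 < b) (hb2 : b ≤ 1 / 6) (hy : 0 < y) :
    2 ≤ ∑' k : ℤ, (if (2 : ℝ) ^ k * b ≤ y ∧ y ≤ (2 : ℝ) ^ (k - 1) then
      cnt b ((2 : ℝ) ^ k - y) else 0) := by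
  obtain ⟨k₀, h1, h2, h3⟩ := exists_first hb2 hy
  have hpos : (0 : ℝ) < (2 : ℝ) ^ (k₀ - 1) := by positivity
  have hk0 : (2 : ℝ) ^ k₀ = 2 * (2 : ℝ) ^ (k₀ - 1) := by
    rw [zpow_sub_one₀ (by norm_num)]; field_simp
  have hk1 : (2 : ℝ) ^ (k₀ + 1) = 4 * (2 : ℝ) ^ (k₀ - 1) := by
    rw [zpow_add_one₀ (by norm_num), hk0]; ring
  have hk2 : (2 : ℝ) ^ (k₀ + 2) = 8 * (2 : ℝ) ^ (k₀ - 1) := by
    rw [zpow_add₀ (by norm_num), hk0]; norm_num; ring
  by_cases hcase : (2 : ℝ) ^ (k₀ + 1) * b ≤ y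
  · calc (2 : ℝ≥0∞) = 1 + 1 := one_add_one_eq_two.symm
      _ ≤ cnt b ((2 : ℝ) ^ k₀ - y) + cnt b ((2 : ℝ) ^ (k₀ + 1) - y) := by
          gcongr
          · exact one_le_cnt hb2 (by linarith)
          · exact one_le_cnt hb2 (by linarith)
      _ = ∑ k ∈ ({k₀, k₀ + 1} : Finset ℤ), (if (2 : ℝ) ^ k * b ≤ y ∧ y ≤ (2 : ℝ) ^ (k - 1) then
            cnt b ((2 : ℝ) ^ k - y) else 0) := by
          rw [Finset.sum_pair (by omega), if_pos ⟨h3, h2⟩, if_pos]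
          refine ⟨hcase, ?_⟩
          rw [add_sub_cancel_right, hk0]; linarith
      _ ≤ _ := ENNReal.sum_le_tsum _
  · push Not at hcase
    -- the first child has two children
    have hz : (2 : ℝ) ^ (k₀ + 2) * b ≤ (2 : ℝ) ^ k₀ - y := by
      rw [hk2, hk0]; rw [hk1] at hcase; nlinarith
    have hz0 : (2 : ℝ) ^ k₀ - y ≤ (2 : ℝ) ^ k₀ := by linarith
    calc (2 : ℝ≥0∞) = ∑ k ∈ ({k₀ + 1, k₀ + 2} : Finset ℤ),
          (if (2 : ℝ) ^ k * b ≤ (2 : ℝ) ^ k₀ - y ∧ (2 : ℝ) ^ k₀ - y ≤ (2 : ℝ) ^ (k - 1) then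
            (1 : ℝ≥0∞) else 0) := by
          rw [Finset.sum_pair (by omega), if_pos, if_pos, one_add_one_eq_two]
          · refine ⟨hz, ?_⟩
            have : k₀ + 2 - 1 = k₀ + 1 := by ring
            rw [this, hk1]
            linarith
          · refine ⟨?_, ?_⟩
            · refine le_trans ?_ hz
              rw [hk1, hk2]; nlinarith
            · rw [add_sub_cancel_right]; exact hz0
      _ ≤ cnt b ((2 : ℝ) ^ k₀ - y) := ENNReal.sum_le_tsum _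
      _ = (if (2 : ℝ) ^ k₀ * b ≤ y ∧ y ≤ (2 : ℝ) ^ (k₀ - 1) then
            cnt b ((2 : ℝ) ^ k₀ - y) else 0) := by rw [if_pos ⟨h3, h2⟩]
      _ ≤ _ := ENNReal.le_tsum k₀

/-- Upper bound for `Q`. -/
lemma lintegral_Q_le {b : ℝ} (hb1 : 1 / 8 < b) (hb2 : b ≤ 1 / 6) {w : ℝ → ℂ}
    (hw : Measurable w) :
    ∫⁻ s in Ioi 0, ‖Q b w s‖ₑ ^ 2 ≤ 2 * ∫⁻ y in Ioi 0, ‖w y‖ₑ ^ 2 := by
  have h := lintegral_Q (b := b) hw (W := fun _ => 1) measurable_const
  simp only [mul_one] at h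
  rw [h, ← lintegral_const_mul _ (hw.enorm.pow_const 2)]
  apply setLIntegral_mono ((hw.enorm.pow_const 2).const_mul 2)
  intro y hy
  rw [mul_comm]
  gcongr
  exact cnt_le_two hb1 hb2 hy

/-- Lower bound for `Q²`. -/
lemma le_lintegral_QQ {b : ℝ} (hb0 : 0 < b) (hb2 : b ≤ 1 / 6) {w : ℝ → ℂ}
    (hw : Measurable w) :
    2 * ∫⁻ y in Ioi 0, ‖w y‖ₑ ^ 2 ≤ ∫⁻ s in Ioi 0, ‖Q b (Q b w) s‖ₑ ^ 2 := by
  have h := lintegral_Q (b := b) (measurable_Q b hw) (W := fun _ => 1) measurable_const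
  simp only [mul_one] at h
  have h' := lintegral_Q (b := b) hw (W := cnt b) (measurable_cnt b)
  rw [h]
  change _ ≤ ∫⁻ y in Ioi 0, ‖Q b w y‖ₑ ^ 2 * cnt b y
  rw [h', ← lintegral_const_mul _ (hw.enorm.pow_const 2)]
  apply setLIntegral_mono' measurableSet_Ioi
  intro y hy
  rw [mul_comm]
  gcongr
  exact two_le_grand hb0 hb2 hy

end Pool.Agent.H51.Frame
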