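import Mathlib
import Pool.Agent.H51.FrameDyadic

/-!
# The frame inequality for `ψ_b`
-/

open MeasureTheory Set FourierTransform Complex ComplexConjugate
open scoped ENNReal

namespace Pool.Agent.H51.Frame

/-- The negative half of `F`, with a sign. -/
noncomputable def neg (F : ℝ → ℂ) (y : ℝ) : ℂ := -F (-y)

lemma measurable_neg' {F : ℝ → ℂ} (hF : Measurable F) : Measurable (neg F) :=
  (hF.comp measurable_neg).neg

/-- One dyadic block. -/
lemma fold_block {b : ℝ} (hb0 : 0 < b) (hb1 : b < 1 / 2) (F : ℝ → ℂ) (j : ℤ) :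
    ∫⁻ x in Ioc 0 ((2 : ℝ) ^ j), ‖fold b F ((2 : ℝ) ^ j) x‖ₑ ^ 2 =
      (∫⁻ s in Ico ((2 : ℝ) ^ (j - 1)) ((2 : ℝ) ^ j), ‖F s - Q b (neg F) s‖ₑ ^ 2) +
      ∫⁻ s in Ico ((2 : ℝ) ^ (j - 1)) ((2 : ℝ) ^ j), ‖neg F s - Q b F s‖ₑ ^ 2 := by
  have hj : (2 : ℝ) ^ j = 2 * (2 : ℝ) ^ (j - 1) := by
    rw [zpow_sub_one₀ (by norm_num)]; field_simp
  have hjpos : (0 : ℝ) < (2 : ℝ) ^ (j - 1) := by positivity
  set T := (2 : ℝ) ^ j with hT
  set S := (2 : ℝ) ^ (j - 1) with hS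
  have hT0 : 0 < T := by positivity
  -- split the interval
  have hsplit : ∫⁻ x in Ioc 0 T, ‖fold b F T x‖ₑ ^ 2 =
      (∫⁻ x in Ioc 0 S, ‖fold b F T x‖ₑ ^ 2) + ∫⁻ x in Ioc S T, ‖fold b F T x‖ₑ ^ 2 := by
    rw [← lintegral_union measurableSet_Ioc (Ioc_disjoint_Ioc_of_le le_rfl),
      Ioc_union_Ioc_eq_Ioc hjpos.le (by linarith)]
  rw [hsplit, add_comm]
  congr 1
  · rw [setLIntegral_congr (Ioo_ae_eq_Ioc (μ := volume) (a := S) (b := T)).symm,
      setLIntegral_congr (Ioo_ae_eq_Ico (μ := volume) (a := S) (b := T)).symm]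
    apply setLIntegral_congr_fun measurableSet_Ioo
    intro x hx
    have hlev : lev x = j := lev_eq hx.1.le hx.2
    simp only [fold, Q, hlev, ← hT, neg]
    rw [if_pos (show T * b ≤ x by have := hx.1; nlinarith)]
    have : -(T - x) = x - T := by ring
    rw [this]
    split_ifs <;> simp
  · rw [← lintegral_indicator measurableSet_Ioc, ← lintegral_indicator measurableSet_Ico,
      ← lintegral_sub_left_eq_self _ T]
    apply lintegral_congr
    intro s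
    by_cases hs : S ≤ s ∧ s < T
    · have hm1 : T - s ∈ Ioc 0 S := by constructor <;> linarith [hs.1, hs.2]
      have hm2 : s ∈ Ico S T := hs
      rw [indicator_of_mem hm1, indicator_of_mem hm2]
      have hlev : lev s = j := lev_eq hs.1 hs.2
      simp only [fold, Q, hlev, ← hT, neg]
      rw [if_pos (show T - s ≤ T * (1 - b) by have := hs.1; nlinarith)]
      have e1 : T - s - T = -s := by ring
      rw [e1]
      by_cases hb : T * b ≤ T - s
      · rw [if_pos hb, if_pos (by linarith), ← enorm_neg]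
        congr 2
        ring
      · rw [if_neg hb, if_neg (by intro h; apply hb; linarith), ← enorm_neg]
        congr 2
        ring
    · have hm1 : T - s ∉ Ioc 0 S := by
        rintro ⟨h1, h2⟩; apply hs; constructor <;> linarith
      have hm2 : s ∉ Ico S T := hs
      rw [indicator_of_notMem hm1, indicator_of_notMem hm2]

/-- Sum over all `j`. -/
lemma tsum_fold {b : ℝ} (hb0 : 0 < b) (hb1 : b < 1 / 2) (F : ℝ → ℂ) :
    ∑' j : ℤ, ∫⁻ x in Ioc 0 ((2 : ℝ) ^ j), ‖fold b F ((2 : ℝ) ^ j) x‖ₑ ^ 2 =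
      (∫⁻ s in Ioi 0, ‖F s - Q b (neg F) s‖ₑ ^ 2) +
      ∫⁻ s in Ioi 0, ‖neg F s - Q b F s‖ₑ ^ 2 := by
  simp_rw [fold_block hb0 hb1 F]
  rw [ENNReal.tsum_add, ← lintegral_dyadic, ← lintegral_dyadic]

/-- The `L²(0, ∞)` norm of a function. -/
noncomputable def nrm (w : ℝ → ℂ) : ℝ≥0∞ := eLpNorm w 2 (volume.restrict (Ioi (0 : ℝ)))

lemma nrm_sq (w : ℝ → ℂ) : nrm w ^ 2 = ∫⁻ s in Ioi 0, ‖w s‖ₑ ^ 2 := by
  unfold nrm
  rw [eLpNorm_eq_lintegral_rpow_enorm_toReal (by norm_num) (by norm_num)]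
  simp only [ENNReal.toReal_ofNat, one_div]
  rw [← ENNReal.rpow_natCast, ← ENNReal.rpow_mul]
  norm_num

lemma nrm_Q_le {b : ℝ} (hb1 : 1 / 8 < b) (hb2 : b ≤ 1 / 6) {w : ℝ → ℂ}
    (hw : Measurable w) : nrm (Q b w) ^ 2 ≤ 2 * nrm w ^ 2 := by
  rw [nrm_sq, nrm_sq]; exact lintegral_Q_le hb1 hb2 hw

lemma le_nrm_QQ {b : ℝ} (hb0 : 0 < b) (hb2 : b ≤ 1 / 6) {w : ℝ → ℂ}
    (hw : Measurable w) : 2 * nrm w ^ 2 ≤ nrm (Q b (Q b w)) ^ 2 := by
  rw [nrm_sq, nrm_sq]; exact le_lintegral_QQ hb0 hb2 hw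

/-- Real number inequality. -/
lemma real_ineq {U V α β q : ℝ} (hU : 0 ≤ U) (hV : 0 ≤ V) (hα : 0 ≤ α) (hβ : 0 ≤ β)
    (hq0 : 0 ≤ q) (hq : q ^ 2 = 2) (h1 : q * U ≤ U + α + q * β) (h2 : q * V ≤ V + β + q * α)
    (h3 : α ≤ U + q * V) (h4 : β ≤ V + q * U) :
    (q - 1) ^ 4 * (U ^ 2 + V ^ 2) ≤ α ^ 2 + β ^ 2 ∧
      α ^ 2 + β ^ 2 ≤ (1 + q) ^ 2 * (U ^ 2 + V ^ 2) := by
  have hq1 : 1 < q := by nlinarith
  have key : ∀ x y : ℝ, (x + q * y) ^ 2 + (y + q * x) ^ 2 ≤ (1 + q) ^ 2 * (x ^ 2 + y ^ 2) := by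
    intro x y
    have : (1 + q) ^ 2 * (x ^ 2 + y ^ 2) - ((x + q * y) ^ 2 + (y + q * x) ^ 2) =
        2 * q * (x - y) ^ 2 := by ring
    nlinarith [mul_nonneg hq0 (sq_nonneg (x - y))]
  constructor
  · have e1 : (q - 1) * U ≤ α + q * β := by linarith
    have e2 : (q - 1) * V ≤ β + q * α := by linarith
    have e3 : ((q - 1) * U) ^ 2 ≤ (α + q * β) ^ 2 := by
      apply pow_le_pow_left₀ (by nlinarith) e1
    have e4 : ((q - 1) * V) ^ 2 ≤ (β + q * α) ^ 2 := by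
      apply pow_le_pow_left₀ (by nlinarith) e2
    have e5 := key α β
    have e6 : (q - 1) ^ 2 * (U ^ 2 + V ^ 2) ≤ (1 + q) ^ 2 * (α ^ 2 + β ^ 2) := by nlinarith
    have e7 : (q - 1) ^ 2 * (1 + q) ^ 2 = 1 := by
      have : (q - 1) * (1 + q) = 1 := by nlinarith
      rw [← mul_pow, this, one_pow]
    calc (q - 1) ^ 4 * (U ^ 2 + V ^ 2) = (q - 1) ^ 2 * ((q - 1) ^ 2 * (U ^ 2 + V ^ 2)) := by ring
      _ ≤ (q - 1) ^ 2 * ((1 + q) ^ 2 * (α ^ 2 + β ^ 2)) := by gcongr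
      _ = ((q - 1) ^ 2 * (1 + q) ^ 2) * (α ^ 2 + β ^ 2) := by ring
      _ = α ^ 2 + β ^ 2 := by rw [e7, one_mul]
  · have e3 : α ^ 2 ≤ (U + q * V) ^ 2 := pow_le_pow_left₀ hα h3 2
    have e4 : β ^ 2 ≤ (V + q * U) ^ 2 := pow_le_pow_left₀ hβ h4 2
    have := key U V
    linarith

/-- The frame inequality on the Fourier side. -/
lemma frame_ineq {b : ℝ} (hb1 : 1 / 8 < b) (hb2 : b ≤ 1 / 6) {F : ℝ → ℂ} (hF : Measurable F)
    (hL : MemLp F 2 volume) :
    ENNReal.ofReal ((Real.sqrt 2 - 1) ^ 4) * ∫⁻ x, ‖F x‖ₑ ^ 2 ≤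
      (∫⁻ s in Ioi 0, ‖F s - Q b (neg F) s‖ₑ ^ 2) + ∫⁻ s in Ioi 0, ‖neg F s - Q b F s‖ₑ ^ 2 ∧
    (∫⁻ s in Ioi 0, ‖F s - Q b (neg F) s‖ₑ ^ 2) + ∫⁻ s in Ioi 0, ‖neg F s - Q b F s‖ₑ ^ 2 ≤
      ENNReal.ofReal ((1 + Real.sqrt 2) ^ 2) * ∫⁻ x, ‖F x‖ₑ ^ 2 := by
  have hb0 : 0 < b := by linarith
  set u := F with hu
  set v := neg F with hv
  have hvm : Measurable v := measurable_neg' hF
  have hQu := measurable_Q b hF
  have hQv := measurable_Q b hvm
  have hQQu := measurable_Q b hQu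
  have hQQv := measurable_Q b hQv
  -- total norm
  have hvL : MemLp v 2 volume := by
    have := hL.comp_measurePreserving (Measure.measurePreserving_neg (volume : Measure ℝ))
    exact this.neg
  have htot : ∫⁻ x, ‖F x‖ₑ ^ 2 = nrm u ^ 2 + nrm v ^ 2 := by
    rw [nrm_sq, nrm_sq, ← lintegral_add_compl _ (measurableSet_Ioi (a := (0 : ℝ))), compl_Ioi]
    congr 1
    rw [setLIntegral_congr (Iio_ae_eq_Iic (μ := volume) (a := (0 : ℝ))).symm,
      ← lintegral_indicator measurableSet_Iio, ← lintegral_indicator measurableSet_Ioi,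
      ← lintegral_neg_eq_self]
    apply lintegral_congr
    intro x
    by_cases hx : 0 < x
    · rw [indicator_of_mem (show -x ∈ Iio (0 : ℝ) by simpa using hx),
        indicator_of_mem (show x ∈ Ioi (0 : ℝ) from hx), hv]
      simp only [neg, enorm_neg]
    · rw [indicator_of_notMem (show -x ∉ Iio (0 : ℝ) by simpa using hx),
        indicator_of_notMem (show x ∉ Ioi (0 : ℝ) from hx)]
  have hfu : nrm u ≠ ⊤ := ((hL.mono_measure Measure.restrict_le_self).eLpNorm_lt_top).ne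
  have hfv : nrm v ≠ ⊤ := ((hvL.mono_measure Measure.restrict_le_self).eLpNorm_lt_top).ne
  set a : ℝ → ℂ := fun s => u s - Q b v s with ha
  set c : ℝ → ℂ := fun s => v s - Q b u s with hc
  have ham : Measurable a := hF.sub hQv
  have hcm : Measurable c := hvm.sub hQu
  rw [htot, ← nrm_sq a, ← nrm_sq c]
  -- finiteness and real versions
  have fin_of : ∀ {w w' : ℝ → ℂ}, nrm w ^ 2 ≤ 2 * nrm w' ^ 2 → nrm w' ≠ ⊤ → nrm w ≠ ⊤ := by
    intro w w' h hw' htop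
    rw [htop] at h
    have : (2 : ℝ≥0∞) * nrm w' ^ 2 ≠ ⊤ := ENNReal.mul_ne_top (by norm_num) (ENNReal.pow_ne_top hw')
    simp at h
    exact this h
  have hQle : ∀ w : ℝ → ℂ, Measurable w → nrm w ≠ ⊤ →
      nrm (Q b w) ≠ ⊤ ∧ (nrm (Q b w)).toReal ≤ Real.sqrt 2 * (nrm w).toReal := by
    intro w hw hwt
    have h1 := nrm_Q_le hb1 hb2 hw
    have h2 := fin_of h1 hwt
    refine ⟨h2, ?_⟩
    have h3 := ENNReal.toReal_mono (ENNReal.mul_ne_top (by norm_num) (ENNReal.pow_ne_top hwt)) h1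
    rw [ENNReal.toReal_pow, ENNReal.toReal_mul, ENNReal.toReal_pow, ENNReal.toReal_ofNat] at h3
    refine (sq_le_sq₀ (by positivity) (by positivity)).1 ?_
    rw [mul_pow, Real.sq_sqrt (by norm_num)]
    exact h3
  have hQQ : ∀ w : ℝ → ℂ, Measurable w → nrm w ≠ ⊤ →
      Real.sqrt 2 * (nrm w).toReal ≤ (nrm (Q b (Q b w))).toReal := by
    intro w hw hwt
    have h1 := le_nrm_QQ hb0 hb2 hw
    have h2 := (hQle _ (measurable_Q b hw) (hQle w hw hwt).1).1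
    have h3 := ENNReal.toReal_mono (ENNReal.pow_ne_top h2) h1
    rw [ENNReal.toReal_pow, ENNReal.toReal_mul, ENNReal.toReal_pow, ENNReal.toReal_ofNat] at h3
    refine (sq_le_sq₀ (by positivity) (by positivity)).1 ?_
    rw [mul_pow, Real.sq_sqrt (by norm_num)]
    exact h3
  obtain ⟨fQu, bQu⟩ := hQle u hF hfu
  obtain ⟨fQv, bQv⟩ := hQle v hvm hfv
  -- triangle inequalities
  have tri : ∀ w w' w'' : ℝ → ℂ, Measurable w' → Measurable w'' → (∀ s, w s = w' s + w'' s) →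
      nrm w' ≠ ⊤ → nrm w'' ≠ ⊤ →
      nrm w ≠ ⊤ ∧ (nrm w).toReal ≤ (nrm w').toReal + (nrm w'').toReal := by
    intro w w' w'' hw' hw'' heq ht' ht''
    have h1 : nrm w ≤ nrm w' + nrm w'' := by
      have : w = w' + w'' := by ext s; exact heq s
      rw [this]
      exact eLpNorm_add_le hw'.aestronglyMeasurable hw''.aestronglyMeasurable (by norm_num)
    have h2 : nrm w' + nrm w'' ≠ ⊤ := ENNReal.add_ne_top.2 ⟨ht', ht''⟩
    refine ⟨ne_top_of_le_ne_top h2 h1, ?_⟩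
    rw [← ENNReal.toReal_add ht' ht'']
    exact ENNReal.toReal_mono h2 h1
  have nneg : ∀ w : ℝ → ℂ, nrm (fun s => -w s) = nrm w := by
    intro w; unfold nrm; exact eLpNorm_neg _ _ _
  obtain ⟨fa, ba⟩ := tri a u (fun s => -Q b v s) hF hQv.neg (fun s => by simp only [ha]; ring) hfu
    (by rw [nneg]; exact fQv)
  obtain ⟨fc, bc⟩ := tri c v (fun s => -Q b u s) hvm hQu.neg (fun s => by simp only [hc]; ring) hfv
    (by rw [nneg]; exact fQu)
  rw [nneg] at ba bc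
  obtain ⟨fQa, bQa⟩ := hQle a ham fa
  obtain ⟨fQc, bQc⟩ := hQle c hcm fc
  -- `Q Q u = u - a - Q c`
  have decomp : ∀ (u v : ℝ → ℂ) (s : ℝ), Q b (Q b u) s =
      u s + (-(u s - Q b v s) + -Q b (fun y => v y - Q b u y) s) := by
    intro u v s
    rw [Q_sub]; ring
  have hQQu' : (nrm (Q b (Q b u))).toReal ≤
      (nrm u).toReal + ((nrm a).toReal + (nrm (Q b c)).toReal) := by
    obtain ⟨f1, b1⟩ := tri (fun s => -a s + -Q b c s) (fun s => -a s) (fun s => -Q b c s)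
      ham.neg (measurable_Q b hcm).neg (fun s => rfl) (by rw [nneg]; exact fa)
      (by rw [nneg]; exact fQc)
    obtain ⟨f2, b2⟩ := tri (Q b (Q b u)) u (fun s => -a s + -Q b c s) hF
      (ham.neg.add (measurable_Q b hcm).neg) (fun s => decomp u v s) hfu f1
    rw [nneg, nneg] at b1
    linarith
  have hQQv' : (nrm (Q b (Q b v))).toReal ≤
      (nrm v).toReal + ((nrm c).toReal + (nrm (Q b a)).toReal) := by
    obtain ⟨f1, b1⟩ := tri (fun s => -c s + -Q b a s) (fun s => -c s) (fun s => -Q b a s)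
      hcm.neg (measurable_Q b ham).neg (fun s => rfl) (by rw [nneg]; exact fc)
      (by rw [nneg]; exact fQa)
    obtain ⟨f2, b2⟩ := tri (Q b (Q b v)) v (fun s => -c s + -Q b a s) hvm
      (hcm.neg.add (measurable_Q b ham).neg) (fun s => decomp v u s) hfv f1
    rw [nneg, nneg] at b1
    linarith
  have h5 := hQQ u hF hfu
  have h6 := hQQ v hvm hfv
  have main := real_ineq (U := (nrm u).toReal) (V := (nrm v).toReal) (α := (nrm a).toReal)
    (β := (nrm c).toReal) (q := Real.sqrt 2) ENNReal.toReal_nonneg ENNReal.toReal_nonneg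
    ENNReal.toReal_nonneg ENNReal.toReal_nonneg (Real.sqrt_nonneg 2)
    (Real.sq_sqrt (by norm_num)) (by linarith) (by linarith) (by linarith) (by linarith)
  -- back to `ℝ≥0∞`
  have conv : ∀ w : ℝ → ℂ, nrm w ≠ ⊤ → nrm w ^ 2 = ENNReal.ofReal ((nrm w).toReal ^ 2) := by
    intro w hw
    rw [ENNReal.ofReal_pow ENNReal.toReal_nonneg, ENNReal.ofReal_toReal hw]
  rw [conv u hfu, conv v hfv, conv a fa, conv c fc, ← ENNReal.ofReal_add (by positivity)
    (by positivity), ← ENNReal.ofReal_add (by positivity) (by positivity),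
    ← ENNReal.ofReal_mul (by positivity), ← ENNReal.ofReal_mul (by positivity)]
  exact ⟨ENNReal.ofReal_le_ofReal main.1, ENNReal.ofReal_le_ofReal main.2⟩

end Pool.Agent.H51.Frame
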