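import Mathlib.Dynamics.OmegaLimit

/-!
# Definitions for omega-limit sets along families of return times
-/

open Set Filter Topology

namespace Pool.Agent.H51.Omega

/-- The set of transfer times `N_T(U, V) = {n : U ∩ T⁻ⁿ V ≠ ∅}`. -/
def hittingTimes {X : Type} (T : X → X) (U V : Set X) : Set ℕ :=
  {n | (U ∩ T^[n] ⁻¹' V).Nonempty}

/-- The family `𝒩_T` of all sets of times that contain `N_T(U, V)` for some nonempty open sets
`U, V`. -/
def returnFamily {X : Type} [TopologicalSpace X] (T : X → X) : Set (Set ℕ) :=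
  {F | ∃ U V : Set X, IsOpen U ∧ U.Nonempty ∧ IsOpen V ∧ V.Nonempty ∧ hittingTimes T U V ⊆ F}

/-- The limit set of `x` along the family `𝒩_T`, i.e. the intersection over `F ∈ 𝒩_T` of the
closures of `{Tⁱ x : i ∈ F}`. -/
def familyOmega {X : Type} [TopologicalSpace X] (T : X → X) (x : X) : Set X :=
  ⋂ F ∈ returnFamily T, closure ((fun i : ℕ => T^[i] x) '' F)

/-- Topological weak mixing: the product `T × T` is topologically transitive. -/
def IsWeaklyMixing {X : Type} [TopologicalSpace X] (T : X → X) : Prop :=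
  ∀ W₁ W₂ : Set (X × X), IsOpen W₁ → W₁.Nonempty → IsOpen W₂ → W₂.Nonempty →
    (hittingTimes (Prod.map T T) W₁ W₂).Nonempty

end Pool.Agent.H51.Omega
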