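import Mathlib
import Pool.Agent.H51.OmegaDefs

/-!
# A weakly mixing system with a limit set along the return-time family that is not an omega-limit set
-/

open Set Filter Topology

namespace Pool.Agent.H51.Omega

/-! ### The system -/

/-- Allowed distances between two occurrences of the symbol `1`: everything but powers of `2`. -/
def Allowed (n : ℕ) : Prop := ∀ k : ℕ, n ≠ 2 ^ k

/-- The underlying closed set of pairs of 0-1 sequences: in the first sequence, the distance
between two ones is never a power of two; the second sequence is arbitrary. -/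
def carrier : Set ((ℕ → Bool) × (ℕ → Bool)) :=
  {p | ∀ i j : ℕ, i < j → p.1 i = true → p.1 j = true → Allowed (j - i)}

/-- The space. -/
abbrev Sp : Type := carrier

lemma isClosed_carrier : IsClosed carrier := by
  have : carrier = ⋂ (i : ℕ), ⋂ (j : ℕ), {p : (ℕ → Bool) × (ℕ → Bool) |
      i < j → p.1 i = true → p.1 j = true → Allowed (j - i)} := by
    ext p; simp [carrier]
  rw [this]
  refine isClosed_iInter fun i => isClosed_iInter fun j => ?_
  have hc : Continuous fun p : (ℕ → Bool) × (ℕ → Bool) => (p.1 i, p.1 j) := by fun_prop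
  have : {p : (ℕ → Bool) × (ℕ → Bool) |
      i < j → p.1 i = true → p.1 j = true → Allowed (j - i)} =
      (fun p : (ℕ → Bool) × (ℕ → Bool) => (p.1 i, p.1 j)) ⁻¹'
        {q : Bool × Bool | i < j → q.1 = true → q.2 = true → Allowed (j - i)} := rfl
  rw [this]
  exact (isClosed_discrete _).preimage hc

instance : CompactSpace Sp := isCompact_iff_compactSpace.1 isClosed_carrier.isCompact

/-- The shift. -/
def shift (p : Sp) : Sp :=
  ⟨(fun i => p.1.1 (i + 1), fun i => p.1.2 (i + 1)), by
    intro i j hij hi hj
    have := p.2 (i + 1) (j + 1) (by omega) hi hj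
    simpa using this⟩

lemma continuous_shift : Continuous shift := by
  refine Continuous.subtype_mk ?_ _
  fun_prop

lemma shift_iterate (n : ℕ) (p : Sp) :
    (shift^[n] p).1 = (fun i => p.1.1 (i + n), fun i => p.1.2 (i + n)) := by
  induction n generalizing p with
  | zero => rfl
  | succ n ih =>
    rw [Function.iterate_succ_apply, ih]
    simp only [shift]
    ext i
    · simp [add_assoc, add_comm, add_left_comm]
    · simp [add_assoc, add_comm, add_left_comm]

/-- Two points agree on the first `L` coordinates. -/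
def Agree (L : ℕ) (p q : Sp) : Prop :=
  ∀ i < L, p.1.1 i = q.1.1 i ∧ p.1.2 i = q.1.2 i

/-- Cylinder sets form a basis. -/
lemma exists_agree {U : Set Sp} (hU : IsOpen U) {p : Sp} (hp : p ∈ U) :
    ∃ L : ℕ, ∀ q : Sp, Agree L p q → q ∈ U := by
  by_contra hcon
  push Not at hcon
  choose q hq hqU using hcon
  have hlim : Tendsto q atTop (𝓝 p) := by
    rw [tendsto_subtype_rng, nhds_prod_eq]
    refine Tendsto.prodMk ?_ ?_
    · rw [tendsto_pi_nhds]
      intro i
      refine tendsto_const_nhds.congr' ?_
      filter_upwards [eventually_gt_atTop i] with L hL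
      exact (hq L i hL).1
    · rw [tendsto_pi_nhds]
      intro i
      refine tendsto_const_nhds.congr' ?_
      filter_upwards [eventually_gt_atTop i] with L hL
      exact (hq L i hL).2
  obtain ⟨L, hL⟩ := (hlim.eventually (hU.mem_nhds hp)).exists
  exact hqU L hL

/-- The times `n > L` all of whose neighbours up to distance `L` are allowed. -/
def Good (L n : ℕ) : Prop := L < n ∧ ∀ m, n ≤ m + L → m ≤ n + L → Allowed m

/-- Gluing of two points at a good time. -/
lemma exists_glue (L n : ℕ) (h : Good L n) (p q : Sp) :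
    ∃ r : Sp, Agree L p r ∧ Agree L q (shift^[n] r) := by
  obtain ⟨hLn, hall⟩ := h
  let a : ℕ → Bool := fun i => if i < L then p.1.1 i else if n ≤ i ∧ i < n + L then q.1.1 (i - n)
    else false
  let b : ℕ → Bool := fun i => if i < L then p.1.2 i else q.1.2 (i - n)
  have hmem : (a, b) ∈ carrier := by
    intro i j hij hi hj
    simp only [a] at hi hj
    by_cases hiL : i < L
    · rw [if_pos hiL] at hi
      by_cases hjL : j < L
      · rw [if_pos hjL] at hj
        exact p.2 i j hij hi hj
      · rw [if_neg hjL] at hj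
        by_cases hjn : n ≤ j ∧ j < n + L
        · exact hall _ (by omega) (by omega)
        · rw [if_neg hjn] at hj
          exact absurd hj (by simp)
    · rw [if_neg hiL] at hi
      have hjL : ¬ j < L := by omega
      rw [if_neg hjL] at hj
      by_cases hin : n ≤ i ∧ i < n + L
      · rw [if_pos hin] at hi
        by_cases hjn : n ≤ j ∧ j < n + L
        · rw [if_pos hjn] at hj
          have := q.2 (i - n) (j - n) (by omega) hi hj
          have he : j - n - (i - n) = j - i := by omega
          rwa [he] at this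
        · rw [if_neg hjn] at hj
          exact absurd hj (by simp)
      · rw [if_neg hin] at hi
        exact absurd hi (by simp)
  refine ⟨⟨(a, b), hmem⟩, ?_, ?_⟩
  · intro i hi
    constructor
    · simp [a, hi]
    · simp [b, hi]
  · intro i hi
    rw [shift_iterate]
    have h1 : ¬ (i + n < L) := by omega
    constructor
    · have h2 : i + n < n + L := by omega
      simp [a, h1, h2]
    · simp [b, h1]

lemma good_mono {L L' n : ℕ} (hL : L ≤ L') (h : Good L' n) : Good L n :=
  ⟨by have := h.1; omega, fun m h1 h2 => h.2 m (by omega) (by omega)⟩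

/-- Midpoints of dyadic blocks are good times. -/
lemma good_mid {L k : ℕ} (hk : L < 2 ^ k) : Good L (3 * 2 ^ k) := by
  refine ⟨by omega, ?_⟩
  intro m h1 h2 j hj
  have hlow : 2 ^ (k + 1) < m := by rw [pow_succ]; omega
  have hup : m < 2 ^ (k + 2) := by rw [pow_succ, pow_succ]; omega
  rw [hj] at hlow hup
  have h3 := (Nat.pow_lt_pow_iff_right (by norm_num : 1 < 2)).1 hlow
  have h4 := (Nat.pow_lt_pow_iff_right (by norm_num : 1 < 2)).1 hup
  omega

lemma isWeaklyMixing_shift : IsWeaklyMixing shift := by
  intro W₁ W₂ hW₁ hne₁ hW₂ hne₂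
  obtain ⟨⟨p, p'⟩, hp⟩ := hne₁
  obtain ⟨⟨q, q'⟩, hq⟩ := hne₂
  obtain ⟨A, A', hA, hA', hpA, hpA', hsub⟩ := isOpen_prod_iff.1 hW₁ p p' hp
  obtain ⟨B, B', hB, hB', hqB, hqB', hsub'⟩ := isOpen_prod_iff.1 hW₂ q q' hq
  obtain ⟨L₁, h₁⟩ := exists_agree hA hpA
  obtain ⟨L₂, h₂⟩ := exists_agree hA' hpA'
  obtain ⟨L₃, h₃⟩ := exists_agree hB hqB
  obtain ⟨L₄, h₄⟩ := exists_agree hB' hqB'
  set L := L₁ + L₂ + L₃ + L₄ with hL
  have hgood : Good L (3 * 2 ^ L) := good_mid Nat.lt_two_pow_self
  obtain ⟨r, hr, hr'⟩ := exists_glue L _ hgood p q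
  obtain ⟨s, hs, hs'⟩ := exists_glue L _ hgood p' q'
  refine ⟨3 * 2 ^ L, (r, s), ?_, ?_⟩
  · exact hsub ⟨h₁ r fun i hi => hr i (by omega), h₂ s fun i hi => hs i (by omega)⟩
  · rw [Set.mem_preimage, Prod.map_iterate, Prod.map_apply]
    exact hsub' ⟨h₃ _ fun i hi => hr' i (by omega), h₄ _ fun i hi => hs' i (by omega)⟩

lemma good_subset_hitting {U V : Set Sp} (hU : IsOpen U) (hUne : U.Nonempty) (hV : IsOpen V)
    (hVne : V.Nonempty) : ∃ L, ∀ n, Good L n → n ∈ hittingTimes shift U V := by
  obtain ⟨p, hp⟩ := hUne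
  obtain ⟨q, hq⟩ := hVne
  obtain ⟨L₁, h₁⟩ := exists_agree hU hp
  obtain ⟨L₂, h₂⟩ := exists_agree hV hq
  refine ⟨L₁ + L₂, fun n hn => ?_⟩
  obtain ⟨r, hr, hr'⟩ := exists_glue _ n hn p q
  exact ⟨r, h₁ r fun i hi => hr i (by omega), h₂ _ fun i hi => hr' i (by omega)⟩

lemma surjective_shift : Function.Surjective shift := by
  intro p
  refine ⟨⟨(fun i => if i = 0 then false else p.1.1 (i - 1),
    fun i => if i = 0 then false else p.1.2 (i - 1)), ?_⟩, ?_⟩
  · intro i j hij hi hj
    by_cases hi0 : i = 0
    · simp [hi0] at hi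
    · have hj0 : j ≠ 0 := by omega
      simp only [hi0, hj0, if_false] at hi hj
      have := p.2 (i - 1) (j - 1) (by omega) hi hj
      have he : j - 1 - (i - 1) = j - i := by omega
      rwa [he] at this
  · apply Subtype.ext
    ext i <;> simp [shift]

/-- Points with an empty first coordinate. -/
def pt (b : ℕ → Bool) : Sp := ⟨(fun _ => false, b), by intro i j _ hi; simp at hi⟩

lemma not_isolated (p : Sp) : ¬ IsOpen ({p} : Set Sp) := by
  intro h
  obtain ⟨L, hL⟩ := exists_agree h (Set.mem_singleton p)
  let q : Sp := ⟨(p.1.1, Function.update p.1.2 L (!p.1.2 L)), p.2⟩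
  have hq : q ∈ ({p} : Set Sp) := by
    apply hL
    intro i hi
    refine ⟨rfl, ?_⟩
    simp only [q]
    rw [Function.update_of_ne (by omega)]
  have : q = p := hq
  have h2 : q.1.2 L = p.1.2 L := by rw [this]
  simp [q] at h2

instance : Nontrivial Sp := by
  refine ⟨pt (fun _ => false), pt (fun _ => true), fun h => ?_⟩
  have := congrArg (fun p : Sp => p.1.2 0) h
  simp [pt] at this

/-- The special point: the second coordinate is constant on dyadic blocks and changes exactly at
powers of two. -/
def special : Sp := pt fun i => decide (Even (Nat.log 2 i))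

/-- Convergence of the orbit of the special point along midpoints of blocks of a fixed parity. -/
lemma tendsto_special (c : ℕ) (hc : c < 2) :
    Tendsto (fun k : ℕ => shift^[3 * 2 ^ (2 * k + c)] special) atTop
      (𝓝 (pt fun _ => decide (c = 1))) := by
  rw [tendsto_subtype_rng, nhds_prod_eq]
  refine Tendsto.prodMk ?_ ?_
  · rw [tendsto_pi_nhds]
    intro i
    refine tendsto_const_nhds.congr' ?_
    filter_upwards with k
    have hs := congrArg (fun u : (ℕ → Bool) × (ℕ → Bool) => u.1 i)
      (shift_iterate (3 * 2 ^ (2 * k + c)) special)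
    exact hs.symm
  · rw [tendsto_pi_nhds]
    intro i
    refine tendsto_const_nhds.congr' ?_
    filter_upwards [eventually_ge_atTop i] with k hk
    have hs := congrArg (fun u : (ℕ → Bool) × (ℕ → Bool) => u.2 i)
      (shift_iterate (3 * 2 ^ (2 * k + c)) special)
    refine Eq.trans ?_ hs.symm
    simp only [special, pt]
    have h1 : i < 2 ^ (2 * k + c) := by
      calc i ≤ 2 * k + c := by omega
        _ < 2 ^ (2 * k + c) := Nat.lt_two_pow_self
    have hlog : Nat.log 2 (i + 3 * 2 ^ (2 * k + c)) = 2 * k + c + 1 := by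
      rw [Nat.log_eq_iff (Or.inl (by omega))]
      constructor
      · rw [pow_succ]; omega
      · rw [pow_succ, pow_succ]; omega
    rw [hlog]
    interval_cases c
    · have : ¬ Even (2 * k + 0 + 1) := by
        rw [Nat.not_even_iff_odd]; exact ⟨k, by ring⟩
      simp [this]
    · have : Even (2 * k + 1 + 1) := ⟨k + 1, by ring⟩
      simp [this]

/-- Both constant points belong to the limit set along the family. -/
lemma pt_mem_familyOmega (c : ℕ) (hc : c < 2) :
    pt (fun _ => decide (c = 1)) ∈ familyOmega shift special := by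
  simp only [familyOmega, mem_iInter]
  rintro F ⟨U, V, hU, hUne, hV, hVne, hF⟩
  obtain ⟨L, hL⟩ := good_subset_hitting hU hUne hV hVne
  refine mem_closure_of_tendsto (tendsto_special c hc) ?_
  filter_upwards [eventually_ge_atTop L] with k hk
  refine ⟨_, hF (hL _ (good_mid ?_)), rfl⟩
  calc L ≤ 2 * k + c := by omega
    _ < 2 ^ (2 * k + c) := Nat.lt_two_pow_self

/-- Every point of the limit set along the family has the same symbol at coordinates `0` and `1`
of its second component. -/
lemma familyOmega_subset {q : Sp} (hq : q ∈ familyOmega shift special) :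
    q.1.2 0 = q.1.2 1 := by
  let U : Set Sp := {p | p.1.1 0 = true}
  let V : Set Sp := {p | p.1.1 1 = true}
  have hcont : ∀ i, Continuous fun p : Sp => p.1.1 i := by intro i; fun_prop
  have hcont2 : ∀ i, Continuous fun p : Sp => p.1.2 i := by intro i; fun_prop
  have hU : IsOpen U := (isOpen_discrete {true}).preimage (hcont 0)
  have hV : IsOpen V := (isOpen_discrete {true}).preimage (hcont 1)
  have hUne : U.Nonempty := by
    refine ⟨⟨(fun i => decide (i = 0), fun _ => false), ?_⟩, by simp [U]⟩
    intro i j hij hi hj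
    simp only [decide_eq_true_eq] at hi hj
    omega
  have hVne : V.Nonempty := by
    refine ⟨⟨(fun i => decide (i = 1), fun _ => false), ?_⟩, by simp [V]⟩
    intro i j hij hi hj
    simp only [decide_eq_true_eq] at hi hj
    omega
  have hmem : q ∈ closure ((fun i : ℕ => shift^[i] special) '' hittingTimes shift U V) := by
    have := hq
    simp only [familyOmega, mem_iInter] at this
    exact this _ ⟨U, V, hU, hUne, hV, hVne, le_rfl⟩
  have hclosed : IsClosed {p : Sp | p.1.2 0 = p.1.2 1} :=
    isClosed_eq (hcont2 0) (hcont2 1)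
  refine (closure_minimal ?_ hclosed) hmem
  rintro _ ⟨n, ⟨r, hr0, hr1⟩, rfl⟩
  simp only [mem_ofPred_eq]
  rw [shift_iterate]
  simp only [special, pt]
  have hr0' : r.1.1 0 = true := hr0
  have hr1' : r.1.1 (1 + n) = true := by
    have : (shift^[n] r).1.1 1 = true := hr1
    rwa [shift_iterate] at this
  have hall : Allowed (1 + n - 0) := r.2 0 (1 + n) (by omega) hr0' hr1'
  have hlog : Nat.log 2 (0 + n) = Nat.log 2 (1 + n) := by
    rw [zero_add]
    rcases Nat.eq_zero_or_pos n with h0 | hpos
    · subst h0
      exact absurd rfl (hall 0)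
    · symm
      have hn : n ≠ 0 := by omega
      rw [Nat.log_eq_iff (Or.inr ⟨by norm_num, by omega⟩)]
      have h1 := Nat.pow_log_le_self 2 hn
      have h2 := Nat.lt_pow_succ_log_self (b := 2) (by norm_num) n
      refine ⟨by omega, ?_⟩
      have h3 := hall (Nat.log 2 n + 1)
      simp only [Nat.sub_zero] at h3
      simp only [Nat.succ_eq_add_one] at h2
      omega
  rw [hlog]

/-- If the omega-limit set of `y` only contains points whose second component has equal symbols
at `0` and `1`, then the second component of `y` is eventually constant. -/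
lemma eventually_const {y : Sp}
    (h : ∀ q ∈ omegaLimit atTop (fun (n : ℕ) (p : Sp) => shift^[n] p) {y}, q.1.2 0 = q.1.2 1) :
    ∃ K, ∀ k ≥ K, y.1.2 k = y.1.2 (k + 1) := by
  have hcont2 : ∀ i, Continuous fun p : Sp => p.1.2 i := by intro i; fun_prop
  by_contra hcon
  push Not at hcon
  -- the bad times are frequent
  have hfreq : ∃ᶠ n in atTop, (shift^[n] y) ∈ {p : Sp | p.1.2 0 ≠ p.1.2 1} := by
    rw [frequently_atTop]
    intro K
    obtain ⟨k, hk, hne⟩ := hcon K
    refine ⟨k, hk, ?_⟩
    simp only [mem_ofPred_eq]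
    rw [shift_iterate]
    simpa [add_comm] using hne
  have hclosed : IsClosed {p : Sp | p.1.2 0 ≠ p.1.2 1} := by
    have : {p : Sp | p.1.2 0 ≠ p.1.2 1} =
        (fun p : Sp => (p.1.2 0, p.1.2 1)) ⁻¹' {q : Bool × Bool | q.1 ≠ q.2} := rfl
    rw [this]
    exact (isClosed_discrete _).preimage ((hcont2 0).prodMk (hcont2 1))
  obtain ⟨q, hqK, hq⟩ := hclosed.isCompact.exists_mapClusterPt_of_frequently hfreq
  have hqo : q ∈ omegaLimit atTop (fun (n : ℕ) (p : Sp) => shift^[n] p) {y} := by
    rw [mem_omegaLimit_singleton_iff_mapClusterPt]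
    exact hq
  exact hqK (h q hqo)

/-- The limit set of `special` along the family is not an omega-limit set. -/
lemma not_omegaLimit (y : Sp) :
    omegaLimit atTop (fun (n : ℕ) (p : Sp) => shift^[n] p) {y} ≠ familyOmega shift special := by
  intro heq
  obtain ⟨K, hK⟩ := eventually_const (y := y) (fun q hq => familyOmega_subset (heq ▸ hq))
  have hcont2 : ∀ i, Continuous fun p : Sp => p.1.2 i := by intro i; fun_prop
  have hconst : ∀ k ≥ K, y.1.2 k = y.1.2 K := by
    intro k hk
    induction k, hk using Nat.le_induction with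
    | base => rfl
    | succ k hk ih => rw [← hK k hk, ih]
  -- every point of the omega-limit set of y starts with the symbol `y.1.2 K`
  have hall : ∀ q ∈ omegaLimit atTop (fun (n : ℕ) (p : Sp) => shift^[n] p) {y},
      q.1.2 0 = y.1.2 K := by
    intro q hq
    rw [mem_omegaLimit_singleton_iff_mapClusterPt] at hq
    have hopen : IsOpen {p : Sp | p.1.2 0 ≠ y.1.2 K} := by
      have : {p : Sp | p.1.2 0 ≠ y.1.2 K} =
          (fun p : Sp => p.1.2 0) ⁻¹' {q : Bool | q ≠ y.1.2 K} := rfl
      rw [this]
      exact (isOpen_discrete _).preimage (hcont2 0)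
    by_contra hne
    have hf := hq.frequently (hopen.mem_nhds hne)
    obtain ⟨n, hn, hne'⟩ := (frequently_atTop.1 hf) K
    apply hne'
    rw [shift_iterate]
    simpa using hconst n hn
  have h0 := hall _ (heq ▸ pt_mem_familyOmega 0 (by norm_num))
  have h1 := hall _ (heq ▸ pt_mem_familyOmega 1 (by norm_num))
  simp only [pt] at h0 h1
  rw [← h1] at h0
  simp at h0

end Pool.Agent.H51.Omega
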